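import Pool.Agent.H59.DE.Defs
import Pool.Agent.H59.DE.Sys

/-!
# The arrow system of a typed complex

An arrow leads from a point to another point of the same cell; its carrier is the common hyperedge or, if the cell has no
hyperedge which contains both points, the cell.
-/

set_option autoImplicit false

namespace Pool.Agent.H59.DE

open Pool.Agent.H54.CX Sys

variable {W T : Type} {X : Cpx W} {kd : W → ℕ} {τ : W → T}

/-- `c` carries an arrow from `p` to `q` -/
def Car (X : Cpx W) (kd : W → ℕ) (p c q : W) : Prop :=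
  kd p = 2 ∧ kd q = 2 ∧ p ≠ q ∧ X.Edge c p ∧ X.Edge c q ∧
    (kd c = 1 ∨ (kd c = 0 ∧ ¬ ∃ e, kd e = 1 ∧ X.Tri c e p ∧ X.Tri c e q))

/-- the carrier `c` belongs to the cell `g` -/
def In (X : Cpx W) (kd : W → ℕ) (g c : W) : Prop := kd g = 0 ∧ (c = g ∨ (kd c = 1 ∧ X.Edge g c))

/-- the arrows -/
@[ext]
structure Ar (X : Cpx W) (kd : W → ℕ) where
  s : W
  c : W
  t : W
  h : Car X kd s c t

theorem Car.symm {p c q : W} (h : Car X kd p c q) : Car X kd q c p := by
  obtain ⟨h1, h2, h3, h4, h5, h6⟩ := h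
  refine ⟨h2, h1, h3.symm, h5, h4, h6.imp id ?_⟩
  rintro ⟨h7, h8⟩
  exact ⟨h7, fun ⟨e, h9, h10, h11⟩ => h8 ⟨e, h9, h11, h10⟩⟩

theorem tri12 {a b c : W} (h : X.Tri a b c) : X.Edge a b := X.edge _ _ _ h
theorem tri23 {a b c : W} (h : X.Tri a b c) : X.Edge b c := X.edge _ _ _ (X.rot _ _ _ h)
theorem tri13 {a b c : W} (h : X.Tri a b c) : X.Edge a c :=
  X.symm _ _ (X.edge _ _ _ (X.rot _ _ _ (X.rot _ _ _ h)))

/-- a carrier which is a hyperedge of the cell -/
theorem In.tri (hT : TC X kd τ) {g c p : W} (h : In X kd g c) (hc : kd c = 1) (hp : kd p = 2)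
    (he : X.Edge c p) : X.Tri g c p := by
  rcases h with ⟨h1, rfl | ⟨h2, h3⟩⟩
  · omega
  · exact hT.fill _ _ _ h1 h2 hp h3 he

theorem In.edge_s (hT : TC X kd τ) {g p c q : W} (h : In X kd g c) (hc : Car X kd p c q) :
    X.Edge g p := by
  obtain ⟨h1, h2, h3, h4, h5, h6⟩ := hc
  rcases h with ⟨h7, rfl | ⟨h8, h9⟩⟩
  · exact h4
  · exact tri13 (hT.fill _ _ _ h7 h8 h1 h9 h4)

theorem In.edge_t (hT : TC X kd τ) {g p c q : W} (h : In X kd g c) (hc : Car X kd p c q) :
    X.Edge g q := h.edge_s hT hc.symm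

/-- the carrier is unique in every cell -/
theorem car_uniq (hT : TC X kd τ) {g p c c' q : W} (h : In X kd g c) (h' : In X kd g c')
    (hc : Car X kd p c q) (hc' : Car X kd p c' q) : c = c' := by
  obtain ⟨h1, h2, h3, h4, h5, h6⟩ := hc
  obtain ⟨-, -, -, h4', h5', h6'⟩ := hc'
  rcases h6 with h6 | ⟨h6, h7⟩
  · rcases h6' with h6' | ⟨h6', h7'⟩
    · by_contra hne
      exact h3 (hT.lg g c c' p q h.1 h6 h6' h1 h2 hne (h.tri hT h6 h1 h4) (h'.tri hT h6' h1 h4')
        (h.tri hT h6 h2 h5) (h'.tri hT h6' h2 h5'))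
    · rcases h'.2 with rfl | ⟨h8, -⟩
      · exact (h7' ⟨c, h6, h.tri hT h6 h1 h4, h.tri hT h6 h2 h5⟩).elim
      · omega
  · rcases h6' with h6' | ⟨h6', h7'⟩
    · rcases h.2 with rfl | ⟨h8, -⟩
      · exact (h7 ⟨c', h6', h'.tri hT h6' h1 h4', h'.tri hT h6' h2 h5'⟩).elim
      · omega
    · rcases h.2 with h8 | ⟨h8, -⟩
      · rcases h'.2 with h9 | ⟨h9, -⟩
        · rw [h8, h9]
        · omega
      · omega

/-- two points of a cell have a carrier -/
theorem car_exists {g p q : W} (hg : kd g = 0) (hp : kd p = 2) (hq : kd q = 2) (hne : p ≠ q)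
    (h : X.Edge g p) (h' : X.Edge g q) : ∃ c, In X kd g c ∧ Car X kd p c q := by
  by_cases h1 : ∃ e, kd e = 1 ∧ X.Tri g e p ∧ X.Tri g e q
  · obtain ⟨e, h2, h3, h4⟩ := h1
    exact ⟨e, ⟨hg, Or.inr ⟨h2, tri12 h3⟩⟩, hp, hq, hne, tri23 h3, tri23 h4, Or.inl h2⟩
  · exact ⟨g, ⟨hg, Or.inl rfl⟩, hp, hq, hne, h, h', Or.inr ⟨hg, h1⟩⟩

namespace Ar

/-- the opposite arrow -/
def bar (a : Ar X kd) : Ar X kd := ⟨a.t, a.c, a.s, a.h.symm⟩

/-- the three vertices and the carriers are in a common cell -/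
def Tr (a b c : Ar X kd) : Prop :=
  a.t = b.s ∧ a.s = c.s ∧ b.t = c.t ∧ ∃ g, In X kd g a.c ∧ In X kd g b.c ∧ In X kd g c.c

variable {a b c d e x y z : Ar X kd}

/-- two arrows with the same source in a common cell -/
theorem same (hT : TC X kd τ) {g : W} (h : a.s = b.s) (ha : In X kd g a.c) (hb : In X kd g b.c) :
    a = b ∨ ∃ x, Tr a x b ∧ In X kd g x.c := by
  by_cases hne : a.t = b.t
  · left
    have h1 : Car X kd a.s b.c a.t := by rw [h, hne]; exact b.h
    exact Ar.ext h (car_uniq hT ha hb a.h h1) hne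
  · right
    obtain ⟨c, h1, h2⟩ := car_exists ha.1 a.h.2.1 b.h.2.1 hne (ha.edge_t hT a.h) (hb.edge_t hT b.h)
    exact ⟨⟨a.t, c, b.t, h2⟩, ⟨rfl, h, rfl, g, ha, h1, hb⟩, h1⟩

theorem tr_uniq (hT : TC X kd τ) (h : Tr a b c) (h' : Tr a d c) : b = d := by
  obtain ⟨h1, h2, h3, g, h4, h5, h6⟩ := h
  obtain ⟨h1', h2', h3', g', h4', h5', h6'⟩ := h'
  have hs : b.s = d.s := h1.symm.trans h1'
  have ht : b.t = d.t := h3.trans h3'.symm
  have hd : Car X kd b.s d.c b.t := by rw [hs, ht]; exact d.h
  refine Ar.ext hs ?_ ht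
  by_cases hg : g = g'
  · subst hg
    exact car_uniq hT h5 h5' b.h hd
  · have key : ∀ u : Ar X kd, In X kd g u.c → In X kd g' u.c → kd u.c = 1 := by
      intro u hu hu'
      rcases hu.2 with h7 | ⟨h7, -⟩
      · rcases hu'.2 with h8 | ⟨h8, -⟩
        · exact (hg (h7.symm.trans h8)).elim
        · exact h8
      · exact h7
    have ka := key a h4 h4'
    have kc := key c h6 h6'
    have hac : a.c = c.c := by
      by_contra hne
      have e1 : X.Edge c.c a.s := by rw [h2]; exact c.h.2.2.2.1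
      exact hg (hT.l2 a.s a.c c.c g g' a.h.1 ka kc h4.1 h4'.1 hne
        (h4.tri hT ka a.h.1 a.h.2.2.2.1) (h6.tri hT kc a.h.1 e1)
        (h4'.tri hT ka a.h.1 a.h.2.2.2.1) (h6'.tri hT kc a.h.1 e1))
    have he : Car X kd b.s a.c b.t := by
      refine ⟨b.h.1, b.h.2.1, b.h.2.2.1, ?_, ?_, Or.inl ka⟩
      · rw [← h1]; exact a.h.2.2.2.2.1
      · rw [h3, hac]; exact c.h.2.2.2.2.1
    rw [car_uniq hT h5 h4 b.h he, car_uniq hT h5' h4' hd he]

/-- the third side is in every cell which contains two sides -/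
theorem tr_in (hT : TC X kd τ) {g : W} (h : Tr a x b) (ha : In X kd g a.c) (hb : In X kd g b.c) :
    In X kd g x.c := by
  rcases same hT h.2.1 ha hb with h1 | ⟨y, hy, hy'⟩
  · subst h1
    exact (x.h.2.2.1 (h.1.symm.trans h.2.2.1.symm)).elim
  · rw [tr_uniq hT h hy]
    exact hy'

theorem kdc (a : Ar X kd) : kd a.c = 1 ∨ kd a.c = 0 := a.h.2.2.2.2.2.imp id fun h => h.1

theorem In.cell {g c : W} (h : In X kd g c) (hc : kd c = 0) : c = g := by
  rcases h.2 with h1 | ⟨h1, -⟩
  · exact h1
  · omega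

/-- two different hyperedges of a cell have different types -/
theorem tne (hT : TC X kd τ) {g e e' : W} (h : In X kd g e) (h' : In X kd g e') (he : kd e = 1)
    (he' : kd e' = 1) (hne : e ≠ e') : τ e ≠ τ e' := by
  intro ht
  rcases h with ⟨h1, rfl | ⟨h2, h3⟩⟩
  · omega
  · rcases h' with ⟨h1', rfl | ⟨h2', h3'⟩⟩
    · omega
    · exact hne (hT.inj _ _ _ h1 h3 h3' ht)

theorem supp3 (hT : TC X kd τ) {g₁ g₂ g₃ : W} (hb : a.s = b.s) (hc : a.s = c.s)
    (h1 : In X kd g₁ a.c) (h1' : In X kd g₁ b.c) (h2 : In X kd g₂ b.c) (h2' : In X kd g₂ c.c)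
    (h3 : In X kd g₃ c.c) (h3' : In X kd g₃ a.c) :
    ∃ g, In X kd g a.c ∧ In X kd g b.c ∧ In X kd g c.c := by
  rcases a.kdc with ka | ka
  · rcases b.kdc with kb | kb
    · rcases c.kdc with kc | kc
      · by_cases hab : a.c = b.c
        · exact ⟨g₂, by rwa [hab], h2, h2'⟩
        · by_cases hbc : b.c = c.c
          · exact ⟨g₁, h1, h1', by rwa [← hbc]⟩
          · by_cases hac : a.c = c.c
            · exact ⟨g₁, h1, h1', by rwa [← hac]⟩
            · have t1 := tne hT h1 h1' ka kb hab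
              have t2 := tne hT h2 h2' kb kc hbc
              have t3 := tne hT h3' h3 ka kc hac
              have e2 : X.Edge b.c a.s := by rw [hb]; exact b.h.2.2.2.1
              have e3 : X.Edge c.c a.s := by rw [hc]; exact c.h.2.2.2.1
              rcases hT.bip a.s a.c b.c c.c a.h.1 ka kb kc a.h.2.2.2.1 e2 e3 with h | h | h
              · exact (t1 h).elim
              · exact (t2 h).elim
              · exact (t3 h).elim
      · have e2 := In.cell h2' kc
        have e3 := In.cell h3 kc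
        subst e2
        rw [← e3] at h3'
        exact ⟨_, h3', h2, h2'⟩
    · have e1 := In.cell h1' kb
      have e2 := In.cell h2 kb
      rw [← e1] at h1
      rw [← e2] at h2'
      exact ⟨_, h1, ⟨by omega, Or.inl rfl⟩, h2'⟩
  · have e1 := In.cell h1 ka
    have e3 := In.cell h3' ka
    rw [← e1] at h1'
    rw [← e3] at h3
    exact ⟨_, ⟨by omega, Or.inl rfl⟩, h1', h3⟩

theorem lk_of (hT : TC X kd τ) {g : W} (h : a.s = b.s) (ha : In X kd g a.c) (hb : In X kd g b.c) :
    a = b ∨ ∃ x, Tr a x b := (same hT h ha hb).imp id fun ⟨x, hx, _⟩ => ⟨x, hx⟩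

end Ar

open Ar

/-- the arrow system of a typed complex -/
noncomputable def sys (hT : TC X kd τ) : Sys W (Ar X kd) where
  src a := a.s
  bar := Ar.bar
  T := Ar.Tr
  bar_bar a := rfl
  comp a b c h := ⟨h.1.symm, h.2.1.symm, h.2.2.1.symm⟩
  rev a b c h := by
    obtain ⟨h1, h2, h3, g, h4, h5, h6⟩ := h
    exact ⟨h1.symm, h3, h2, g, h5, h4, h6⟩
  rot a b c h := by
    obtain ⟨h1, h2, h3, g, h4, h5, h6⟩ := h
    exact ⟨h2, h1, h3.symm, g, h4, h6, h5⟩
  uniq a b b' c h h' := tr_uniq hT h h'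
  no1 a b h := b.h.2.2.1 (h.1.symm.trans h.2.2.1.symm)
  flag a b c x y z hx hy hz := by
    obtain ⟨g₁, i1, -, i1'⟩ := hx.2.2.2
    obtain ⟨g₂, i2, -, i2'⟩ := hy.2.2.2
    obtain ⟨g₃, i3, -, i3'⟩ := hz.2.2.2
    obtain ⟨g, ha, hb, hc⟩ := supp3 hT hx.2.1 hz.2.1 i1 i1' i2 i2' i3' i3
    exact ⟨hx.2.2.1.trans hy.1, hx.1.symm.trans hz.1, hy.2.2.1.trans hz.2.2.1.symm, g,
      tr_in hT hx ha hb, tr_in hT hy hb hc, tr_in hT hz ha hc⟩
  d4 := by
    rintro a b c d ⟨x, hx⟩ ⟨y, hy⟩ ⟨z, hz⟩ ⟨w, hw⟩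
    have sb := hx.2.1
    have sc := sb.trans hy.2.1
    have sd := sc.trans hz.2.1
    obtain ⟨g₁, i1, -, i1'⟩ := hx.2.2.2
    obtain ⟨g₂, i2, -, i2'⟩ := hy.2.2.2
    obtain ⟨g₃, i3, -, i3'⟩ := hz.2.2.2
    obtain ⟨g₄, i4, -, i4'⟩ := hw.2.2.2
    have ac : ∀ g, In X kd g a.c → In X kd g c.c → a = c ∨ b = d ∨ (∃ x, Tr a x c) ∨
        ∃ x, Tr b x d := fun g h h' => by
      rcases lk_of hT sc h h' with h | h
      · exact Or.inl h
      · exact Or.inr (Or.inr (Or.inl h))
    have bd : ∀ g, In X kd g b.c → In X kd g d.c → a = c ∨ b = d ∨ (∃ x, Tr a x c) ∨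
        ∃ x, Tr b x d := fun g h h' => by
      rcases lk_of hT (sb.symm.trans sd) h h' with h | h
      · exact Or.inr (Or.inl h)
      · exact Or.inr (Or.inr (Or.inr h))
    rcases a.kdc with ka | ka
    · rcases b.kdc with kb | kb
      · rcases c.kdc with kc | kc
        · rcases d.kdc with kd' | kd'
          · by_cases hab : a.c = b.c
            · exact ac g₂ (by rwa [hab]) i2'
            by_cases hbc : b.c = c.c
            · exact ac g₁ i1 (by rwa [← hbc])
            by_cases hcd : c.c = d.c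
            · exact bd g₂ i2 (by rwa [← hcd])
            by_cases hda : d.c = a.c
            · exact bd g₁ i1' (by rwa [hda])
            have e1 := a.h.2.2.2.1
            have e2 : X.Edge b.c a.s := by rw [sb]; exact b.h.2.2.2.1
            have e3 : X.Edge c.c a.s := by rw [sc]; exact c.h.2.2.2.1
            have e4 : X.Edge d.c a.s := by rw [sd]; exact d.h.2.2.2.1
            rcases hT.l4 a.s a.c b.c c.c d.c g₁ g₂ g₃ g₄ a.h.1 ka kb kc kd' i1.1 i2.1 i3.1 i4.1
              (i1.tri hT ka a.h.1 e1) (i1'.tri hT kb a.h.1 e2) (i2.tri hT kb a.h.1 e2)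
              (i2'.tri hT kc a.h.1 e3) (i3.tri hT kc a.h.1 e3) (i3'.tri hT kd' a.h.1 e4)
              (i4.tri hT kd' a.h.1 e4) (i4'.tri hT ka a.h.1 e1) hab hbc hcd hda with h | h
            · exact ac g₁ i1 (by rwa [← h])
            · exact bd g₁ i1' (by rwa [← h])
          · have e3 := In.cell i3' kd'
            have e4 := In.cell i4 kd'
            rw [← e3] at i3
            rw [← e4] at i4'
            exact ac _ i4' i3
        · have e2 := In.cell i2' kc
          have e3 := In.cell i3 kc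
          rw [← e2] at i2
          rw [← e3] at i3'
          exact bd _ i2 i3'
      · have e1 := In.cell i1' kb
        have e2 := In.cell i2 kb
        rw [← e1] at i1
        rw [← e2] at i2'
        exact ac _ i1 i2'
    · have e1 := In.cell i1 ka
      have e4 := In.cell i4' ka
      rw [← e1] at i1'
      rw [← e4] at i4
      exact bd _ i1' i4
  d5 := by
    rintro a b c d e ⟨x, hx⟩ ⟨y, hy⟩ ⟨z, hz⟩ ⟨w, hw⟩ ⟨v, hv⟩
    have sb := hx.2.1
    have sc := sb.trans hy.2.1
    have sd := sc.trans hz.2.1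
    have se := sd.trans hw.2.1
    obtain ⟨g₁, i1, -, i1'⟩ := hx.2.2.2
    obtain ⟨g₂, i2, -, i2'⟩ := hy.2.2.2
    obtain ⟨g₃, i3, -, i3'⟩ := hz.2.2.2
    obtain ⟨g₄, i4, -, i4'⟩ := hw.2.2.2
    obtain ⟨g₅, i5, -, i5'⟩ := hv.2.2.2
    have ac := fun g (h : In X kd g a.c) (h' : In X kd g c.c) => lk_of hT sc h h'
    have bd := fun g (h : In X kd g b.c) (h' : In X kd g d.c) => lk_of hT (sb.symm.trans sd) h h'
    have ce := fun g (h : In X kd g c.c) (h' : In X kd g e.c) => lk_of hT (sc.symm.trans se) h h'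
    have da := fun g (h : In X kd g d.c) (h' : In X kd g a.c) => lk_of hT sd.symm h h'
    have eb := fun g (h : In X kd g e.c) (h' : In X kd g b.c) => lk_of hT (se.symm.trans sb) h h'
    rcases a.kdc with ka | ka
    · rcases b.kdc with kb | kb
      · rcases c.kdc with kc | kc
        · rcases d.kdc with kd' | kd'
          · rcases e.kdc with ke | ke
            · by_cases hab : a.c = b.c
              · have := ac g₂ (by rwa [hab]) i2'
                tauto
              by_cases hbc : b.c = c.c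
              · have := ac g₁ i1 (by rwa [← hbc])
                tauto
              by_cases hcd : c.c = d.c
              · have := bd g₂ i2 (by rwa [← hcd])
                tauto
              by_cases hde : d.c = e.c
              · have := ce g₃ i3 (by rwa [← hde])
                tauto
              by_cases hea : e.c = a.c
              · have := eb g₁ (by rwa [hea]) i1'
                tauto
              exfalso
              have t1 := tne hT i1 i1' ka kb hab
              have t2 := tne hT i2 i2' kb kc hbc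
              have t3 := tne hT i3 i3' kc kd' hcd
              have t4 := tne hT i4 i4' kd' ke hde
              have t5 := tne hT i5 i5' ke ka hea
              have e1 := a.h.2.2.2.1
              have e2 : X.Edge b.c a.s := by rw [sb]; exact b.h.2.2.2.1
              have e3 : X.Edge c.c a.s := by rw [sc]; exact c.h.2.2.2.1
              have e4 : X.Edge d.c a.s := by rw [sd]; exact d.h.2.2.2.1
              have e5 : X.Edge e.c a.s := by rw [se]; exact e.h.2.2.2.1
              have b1 := hT.bip a.s a.c b.c c.c a.h.1 ka kb kc e1 e2 e3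
              have b3 := hT.bip a.s c.c d.c e.c a.h.1 kc kd' ke e3 e4 e5
              have q1 : τ a.c = τ c.c := by tauto
              have q3 : τ c.c = τ e.c := by tauto
              exact t5 (q3.symm.trans q1.symm)
            · have u4 := In.cell i4' ke
              have u5 := In.cell i5 ke
              rw [← u4] at i4
              rw [← u5] at i5'
              have := da _ i4 i5'
              tauto
          · have u3 := In.cell i3' kd'
            have u4 := In.cell i4 kd'
            rw [← u3] at i3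
            rw [← u4] at i4'
            have := ce _ i3 i4'
            tauto
        · have u2 := In.cell i2' kc
          have u3 := In.cell i3 kc
          rw [← u2] at i2
          rw [← u3] at i3'
          have := bd _ i2 i3'
          tauto
      · have u1 := In.cell i1' kb
        have u2 := In.cell i2 kb
        rw [← u1] at i1
        rw [← u2] at i2'
        have := ac _ i1 i2'
        tauto
    · have u1 := In.cell i1 ka
      have u5 := In.cell i5' ka
      rw [← u1] at i1'
      rw [← u5] at i5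
      have := eb _ i5 i1'
      tauto

end Pool.Agent.H59.DE
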