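import Pool.Agent.H54.CX.Main

/-!
# Sections of coverings of simply connected complexes

A covering of the complex `X` is described by the relation `F x s` (`s` is a state over the vertex `x`) and by the
transitions `R x y s t` along the edges, which are compatible with the triangles. If `X` is simply connected then there
is a section through every state.
-/

set_option autoImplicit false

namespace Pool.Agent.H59.DE

open Pool.Agent.H54.CX Pool.Agent.H54.CX.Cls

/-- coverings -/
structure Cvr {V : Type} (X : Cpx V) (S : Type) (F : V → S → Prop) (R : V → V → S → S → Prop) :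
    Prop where
  tot : ∀ x y s, X.Edge x y → F x s → ∃ t, F y t ∧ R x y s t
  det : ∀ x y s t t', X.Edge x y → F x s → F y t → F y t' → R x y s t → R x y s t' → t = t'
  back : ∀ x y s t, X.Edge x y → F x s → F y t → R x y s t → R y x t s
  tri : ∀ x y z s t r, X.Tri x y z → F x s → F y t → F z r → R x y s t → R x z s r → R y z t r

section

variable {V : Type} {X : Cpx V} {S : Type} {F : V → S → Prop} {R : V → V → S → S → Prop}

/-- vertices with a state -/
abbrev Pr (F : V → S → Prop) : Type := {p : V × S // F p.1 p.2}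

/-- the state of the neighbour -/
noncomputable def nxs (hm : Cvr X S F R) (p : Pr F) (y : V) (h : X.Edge p.1.1 y) : Pr F :=
  ⟨(y, (hm.tot _ _ _ h p.2).choose), (hm.tot _ _ _ h p.2).choose_spec.1⟩

theorem nxs_nb (hm : Cvr X S F R) (p : Pr F) (y : V) (h : X.Edge p.1.1 y) :
    R p.1.1 y p.1.2 (nxs hm p y h).1.2 := (hm.tot _ _ _ h p.2).choose_spec.2

open Classical in
/-- the action of a letter -/
noncomputable def stl (hm : Cvr X S F R) (y : V) : Function.End (Option (Pr F))
  | none => none
  | some p => if p.1.1 = y then some p else if h : X.Edge p.1.1 y then some (nxs hm p y h) else none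

theorem stl_same (hm : Cvr X S F R) {y : V} {p : Pr F} (h : p.1.1 = y) :
    stl hm y (some p) = some p := if_pos h

theorem stl_edge (hm : Cvr X S F R) {y : V} {p : Pr F} (h : X.Edge p.1.1 y) :
    stl hm y (some p) = some (nxs hm p y h) := by
  have h1 : p.1.1 ≠ y := X.ne _ _ h
  exact (if_neg h1).trans (dif_pos h)

theorem stl_none (hm : Cvr X S F R) {y : V} {p : Pr F} (h : p.1.1 ≠ y)
    (h' : ¬ X.Edge p.1.1 y) : stl hm y (some p) = none :=
  (if_neg h).trans (dif_neg h')

/-- the first component after a letter -/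
theorem stl_some (hm : Cvr X S F R) (y : V) (s : Option (Pr F)) :
    stl hm y s = none ∨ ∃ p : Pr F, p.1.1 = y ∧ stl hm y s = some p := by
  rcases s with _ | p
  · exact Or.inl rfl
  · by_cases h : p.1.1 = y
    · exact Or.inr ⟨p, h, stl_same hm h⟩
    · by_cases h' : X.Edge p.1.1 y
      · exact Or.inr ⟨_, rfl, stl_edge hm h'⟩
      · exact Or.inl (stl_none hm h h')

theorem stl_stay (hm : Cvr X S F R) (y : V) (s : Option (Pr F)) :
    stl hm y (stl hm y s) = stl hm y s := by
  rcases stl_some hm y s with h | ⟨p, hp, h⟩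
  · rw [h]; rfl
  · rw [h, stl_same hm hp]

theorem pr_ext {p q : Pr F} (h : p.1.1 = q.1.1) (h' : p.1.2 = q.1.2) : p = q :=
  Subtype.ext (Prod.ext h h')

theorem stl_back (hm : Cvr X S F R) (a b : V) (hab : X.Edge a b) (s : Option (Pr F)) :
    stl hm a (stl hm b (stl hm a s)) = stl hm a s := by
  rcases stl_some hm a s with h | ⟨p, hp, h⟩
  · rw [h]; rfl
  · rw [h]
    subst hp
    have h2 : X.Edge (nxs hm p b hab).1.1 p.1.1 := X.symm _ _ hab
    rw [stl_edge hm hab, stl_edge hm h2]
    congr 1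
    refine pr_ext rfl ?_
    have h3 := nxs_nb hm (nxs hm p b hab) p.1.1 h2
    have h4 := hm.back _ _ _ _ hab p.2 (nxs hm p b hab).2 (nxs_nb hm p b hab)
    exact hm.det _ _ _ _ _ h2 (nxs hm p b hab).2 (nxs hm (nxs hm p b hab) p.1.1 h2).2 p.2 h3 h4

theorem stl_tri (hm : Cvr X S F R) (a b c : V) (habc : X.Tri a b c)
    (s : Option (Pr F)) :
    stl hm c (stl hm b (stl hm a s)) = stl hm c (stl hm a s) := by
  rcases stl_some hm a s with h | ⟨p, hp, h⟩
  · rw [h]; rfl
  · rw [h]
    subst hp
    have hab := X.edge _ _ _ habc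
    have hbc := X.edge _ _ _ (X.rot _ _ _ habc)
    have hac := X.symm _ _ (X.edge _ _ _ (X.rot _ _ _ (X.rot _ _ _ habc)))
    have h2 : X.Edge (nxs hm p b hab).1.1 c := hbc
    rw [stl_edge hm hab, stl_edge hm h2, stl_edge hm hac]
    congr 1
    refine pr_ext rfl ?_
    have h3 := nxs_nb hm (nxs hm p b hab) c h2
    have h4 := nxs_nb hm p b hab
    have h5 := nxs_nb hm p c hac
    exact hm.det _ _ _ _ _ h2 (nxs hm p b hab).2 (nxs hm (nxs hm p b hab) c h2).2
      (nxs hm p c hac).2 h3 (hm.tri _ _ _ _ _ _ habc p.2 (nxs hm p b hab).2 (nxs hm p c hac).2 h4 h5)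

/-- the action of the monoid of the classes -/
noncomputable def stlHom (hm : Cvr X S F R) :
    Cls X →* (Function.End (Option (Pr F)))ᵐᵒᵖ :=
  Cls.lift (fun y => MulOpposite.op (stl hm y))
    (fun a => congrArg MulOpposite.op (funext (stl_stay hm a)))
    (fun a b h => congrArg MulOpposite.op (funext (stl_back hm a b h)))
    (fun a b c h => congrArg MulOpposite.op (funext (stl_tri hm a b c h)))

theorem stlHom_mul_pt (hm : Cvr X S F R) (q : Cls X) (y : V) (s : Option (Pr F)) :
    (stlHom hm (q * pt X y)).unop s = stl hm y ((stlHom hm q).unop s) := by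
  rw [map_mul]
  show (stlHom hm (pt X y)).unop ((stlHom hm q).unop s) = _
  rw [show stlHom hm (pt X y) = MulOpposite.op (stl hm y) from lift_pt _ _ _ _ _]
  rfl

theorem stlHom_path (hm : Cvr X S F R) (p₀ : Pr F) {y : V} {q : Cls X}
    (h : PC X p₀.1.1 y q) :
    ∃ p : Pr F, p.1.1 = y ∧ (stlHom hm q).unop (some p₀) = some p := by
  induction h with
  | base =>
    have h1 := stlHom_mul_pt hm 1 p₀.1.1 (some p₀)
    rw [one_mul, map_one] at h1
    refine ⟨p₀, rfl, ?_⟩
    rw [h1]
    exact stl_same hm rfl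
  | @step b c q h h' ih =>
    obtain ⟨p, hp, h1⟩ := ih
    rw [stlHom_mul_pt, h1]
    subst hp
    rcases h' with h' | h'
    · exact ⟨p, h', stl_same hm h'⟩
    · exact ⟨nxs hm p c h', rfl, stl_edge hm h'⟩

/-- **Sections.** -/
theorem Cvr.exists_section (hm : Cvr X S F R) (hsc : X.SC) (x₀ : V) (s₀ : S) (h₀ : F x₀ s₀) :
    ∃ st : V → S, st x₀ = s₀ ∧ (∀ x, F x (st x)) ∧ ∀ x y, X.Edge x y → R x y (st x) (st y) := by
  obtain ⟨-, hconn, hcontr⟩ := sc_iff.1 hsc
  have hpc : ∀ x, ∃ q, PC X x₀ x q := hconn x₀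
  choose q hq using hpc
  have huniq : ∀ x r, PC X x₀ x r → r = q x := by
    intro x r hr
    obtain ⟨r', hr', h1, h2⟩ := (hq x).exists_rev
    have h3 := hcontr _ _ (hr.trans hr')
    have h4 : r * r' * q x = pt X x₀ * q x := by rw [h3]
    rw [mul_assoc, h2, hr.mul_pt, (hq x).pt_mul] at h4
    exact h4
  let p₀ : Pr F := ⟨(x₀, s₀), h₀⟩
  have hp : ∀ x, ∃ p : Pr F, p.1.1 = x ∧ (stlHom hm (q x)).unop (some p₀) = some p :=
    fun x => stlHom_path hm p₀ (hq x)
  choose p hp1 hp2 using hp
  refine ⟨fun x => (p x).1.2, ?_, ?_, ?_⟩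
  · have h1 : q x₀ = pt X x₀ := (huniq _ _ PC.base).symm
    have h2 := hp2 x₀
    have h3 := stlHom_mul_pt hm 1 x₀ (some p₀)
    rw [one_mul, map_one] at h3
    rw [h1, h3] at h2
    have h4 : stl hm x₀ (some p₀) = some p₀ := stl_same hm rfl
    have h5 : some p₀ = some (p x₀) := h4.symm.trans h2
    show (p x₀).1.2 = s₀
    rw [← Option.some.inj h5]
  · intro x
    have := (p x).2
    rwa [hp1] at this
  · intro x y h
    have h1 : q y = q x * pt X y := (huniq _ _ ((hq x).step (Or.inr h))).symm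
    have h2 := hp2 y
    rw [h1, stlHom_mul_pt, hp2 x] at h2
    have h3 : X.Edge (p x).1.1 y := by rw [hp1]; exact h
    rw [stl_edge hm h3] at h2
    have h4 := nxs_nb hm (p x) y h3
    rw [Option.some.inj h2, hp1] at h4
    exact h4

/-- two sections which agree at a vertex are equal -/
theorem Cvr.section_uniq (hm : Cvr X S F R) (hsc : X.SC) {st st' : V → S}
    (hF : ∀ x, F x (st x)) (hF' : ∀ x, F x (st' x))
    (h : ∀ x y, X.Edge x y → R x y (st x) (st y)) (h' : ∀ x y, X.Edge x y → R x y (st' x) (st' y))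
    {v : V} (hv : st v = st' v) (x : V) : st x = st' x := by
  obtain ⟨-, hconn, -⟩ := sc_iff.1 hsc
  obtain ⟨q, hq⟩ := hconn v x
  induction hq with
  | base => exact hv
  | @step b c q h1 h2 ih =>
    rcases h2 with h2 | h2
    · rw [← h2]; exact ih
    · have h3 := h b c h2
      rw [ih] at h3
      exact hm.det _ _ _ _ _ h2 (hF' b) (hF c) (hF' c) h3 (h' b c h2)

end

end Pool.Agent.H59.DE
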