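import Pool.Agent.H59.DE.Tower
import Pool.Agent.H59.DE.Sec
import Pool.Agent.H59.DE.Arw

/-!
# The levels of a simply connected typed complex
-/

set_option autoImplicit false

namespace Pool.Agent.H59.DE

open Pool.Agent.H54.CX Sys Ar St

variable {W T : Type} {X : Cpx W} {kd : W → ℕ} {τ : W → T}

/-- the vertex `x` is the cell `g` or belongs to it -/
def InC (X : Cpx W) (kd : W → ℕ) (g x : W) : Prop := kd g = 0 ∧ (x = g ∨ X.Edge g x)

/-- every vertex of a connected complex with an edge has a neighbour -/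
theorem exists_nb (hsc : X.SC) (hne : ∃ a b, X.Edge a b) (x : W) : ∃ y, X.Edge x y := by
  obtain ⟨a, b, hab⟩ := hne
  obtain ⟨-, hconn, -⟩ := sc_iff.1 hsc
  obtain ⟨q, hq⟩ := hconn a x
  have : ∀ c q, PC X a c q → ∃ y, X.Edge c y := by
    intro c q hq
    induction hq with
    | base => exact ⟨b, hab⟩
    | @step c d q h h' ih =>
      rcases h' with h' | h'
      · rw [← h']; exact ih
      · exact ⟨c, X.symm _ _ h'⟩
  exact this _ _ hq

/-- every vertex has a base point -/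
theorem exists_pi (hT : TC X kd τ) (hsc : X.SC) (hne : ∃ a b, X.Edge a b) (x : W) :
    ∃ p, kd p = 2 ∧ (kd x = 2 → p = x) ∧ (kd x = 1 → X.Edge x p) ∧
      ∀ g, InC X kd g x → X.Edge g p := by
  obtain ⟨y, hy⟩ := exists_nb hsc hne x
  have hx := hT.kd_le x
  have hyy := hT.kd_le y
  have hxy := hT.kd_ne _ _ hy
  obtain hx0 | hx1 | hx2 : kd x = 0 ∨ kd x = 1 ∨ kd x = 2 := by omega
  · have h1 : ∃ p, kd p = 2 ∧ X.Edge x p := by
      obtain h2 | h2 : kd y = 1 ∨ kd y = 2 := by omega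
      · obtain ⟨p, q, -, h3, -, h4, -⟩ := hT.pts _ _ hx0 h2 hy
        exact ⟨p, h3, tri13 h4⟩
      · exact ⟨y, h2, hy⟩
    obtain ⟨p, hp, hp'⟩ := h1
    refine ⟨p, hp, fun h => by omega, fun h => by omega, ?_⟩
    rintro g ⟨hg, rfl | hg'⟩
    · exact hp'
    · exact (hT.kd_ne _ _ hg' (by omega)).elim
  · have h1 : ∃ p, kd p = 2 ∧ X.Edge x p := by
      obtain h2 | h2 : kd y = 0 ∨ kd y = 2 := by omega
      · obtain ⟨p, q, -, h3, -, h4, -⟩ := hT.pts _ _ h2 hx1 (X.symm _ _ hy)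
        exact ⟨p, h3, tri23 h4⟩
      · exact ⟨y, h2, hy⟩
    obtain ⟨p, hp, hp'⟩ := h1
    refine ⟨p, hp, fun h => by omega, fun _ => hp', ?_⟩
    rintro g ⟨hg, rfl | hg'⟩
    · omega
    · exact tri13 (hT.fill _ _ _ hg hx1 hp hg' hp')
  · refine ⟨x, hx2, fun _ => rfl, fun h => by omega, ?_⟩
    rintro g ⟨hg, rfl | hg'⟩
    · omega
    · exact hg'

/-- adjacent vertices are in a common cell -/
theorem exists_cell (hT : TC X kd τ) {x y : W} (h : X.Edge x y) :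
    ∃ g, InC X kd g x ∧ InC X kd g y := by
  have hx := hT.kd_le x
  have hy := hT.kd_le y
  have hxy := hT.kd_ne _ _ h
  by_cases hx0 : kd x = 0
  · exact ⟨x, ⟨hx0, Or.inl rfl⟩, hx0, Or.inr h⟩
  by_cases hy0 : kd y = 0
  · exact ⟨y, ⟨hy0, Or.inr (X.symm _ _ h)⟩, hy0, Or.inl rfl⟩
  obtain ⟨h1, h2⟩ | ⟨h1, h2⟩ : (kd x = 1 ∧ kd y = 2) ∨ (kd x = 2 ∧ kd y = 1) := by omega
  · obtain ⟨g, hg, hg'⟩ := hT.cell _ _ h1 h2 h
    exact ⟨g, ⟨hg, Or.inr hg'⟩, hg, Or.inr (tri13 (hT.fill _ _ _ hg h1 h2 hg' h))⟩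
  · obtain ⟨g, hg, hg'⟩ := hT.cell _ _ h2 h1 (X.symm _ _ h)
    exact ⟨g, ⟨hg, Or.inr (tri13 (hT.fill _ _ _ hg h2 h1 hg' (X.symm _ _ h)))⟩, hg, Or.inr hg'⟩

/-- the vertices of a triangle are in a common cell -/
theorem exists_cell3 (hT : TC X kd τ) {x y z : W} (h : X.Tri x y z) :
    ∃ g, InC X kd g x ∧ InC X kd g y ∧ InC X kd g z := by
  have hx := hT.kd_le x
  have hy := hT.kd_le y
  have hz := hT.kd_le z
  have hxy := hT.kd_ne _ _ (tri12 h)
  have hyz := hT.kd_ne _ _ (tri23 h)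
  have hxz := hT.kd_ne _ _ (tri13 h)
  by_cases hx0 : kd x = 0
  · exact ⟨x, ⟨hx0, Or.inl rfl⟩, ⟨hx0, Or.inr (tri12 h)⟩, hx0, Or.inr (tri13 h)⟩
  by_cases hy0 : kd y = 0
  · exact ⟨y, ⟨hy0, Or.inr (X.symm _ _ (tri12 h))⟩, ⟨hy0, Or.inl rfl⟩, hy0, Or.inr (tri23 h)⟩
  · have hz0 : kd z = 0 := by omega
    exact ⟨z, ⟨hz0, Or.inr (X.symm _ _ (tri13 h))⟩, ⟨hz0, Or.inr (X.symm _ _ (tri23 h))⟩, hz0,
      Or.inl rfl⟩

/-- base points -/
structure Bas (X : Cpx W) (kd : W → ℕ) (pi : W → W) : Prop where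
  pt : ∀ x, kd (pi x) = 2
  same : ∀ x, kd x = 2 → pi x = x
  hyp : ∀ x, kd x = 1 → X.Edge x (pi x)
  cell : ∀ x g, InC X kd g x → X.Edge g (pi x)

/-- the transitions -/
def RR (hT : TC X kd τ) (pi : W → W) (o : W) (x y : W) (s t : St (sys hT) o) : Prop :=
  (pi x = pi y ∧ s = t) ∨ ∃ a : Ar X kd, a.s = pi x ∧ a.t = pi y ∧
    (∃ g, InC X kd g x ∧ InC X kd g y ∧ In X kd g a.c) ∧ Nb s a t

section

variable {hT : TC X kd τ} {pi : W → W} {o : W}

theorem InC.eq {g x : W} (hT : TC X kd τ) (h : InC X kd g x) (hx : kd x = 0) : x = g := by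
  rcases h with ⟨h1, h2 | h2⟩
  · exact h2
  · exact (hT.kd_ne _ _ h2 (by omega)).elim

theorem InC.edge {g x : W} (h : InC X kd g x) (hx : kd x ≠ 0) : X.Edge g x := by
  rcases h with ⟨h1, rfl | h2⟩
  · exact (hx h1).elim
  · exact h2

/-- the carrier is in every cell which contains the two adjacent vertices -/
theorem rr_in (hT : TC X kd τ) (hb : Bas X kd pi) {x y : W} (h : X.Edge x y) {a : Ar X kd}
    (hs : a.s = pi x) (ht : a.t = pi y) {g g' : W} (hx : InC X kd g x) (hy : InC X kd g y)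
    (ha : In X kd g a.c) (hx' : InC X kd g' x) (hy' : InC X kd g' y) : In X kd g' a.c := by
  have hkx := hT.kd_le x
  have hky := hT.kd_le y
  have hxy := hT.kd_ne _ _ h
  have key : ∀ e p : W, kd e = 1 → kd p = 2 → X.Edge e p → InC X kd g e → InC X kd g' e →
      ((a.s = pi e ∧ a.t = p) ∨ (a.s = p ∧ a.t = pi e)) → In X kd g' a.c := by
    intro e p he hp hep h1 h2 h3
    have g1 : X.Edge g e := h1.edge (by omega)
    have g2 : X.Edge g' e := h2.edge (by omega)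
    have hpi : X.Edge e (pi e) := hb.hyp _ he
    have hc : Car X kd a.s e a.t := by
      rcases h3 with ⟨h3, h4⟩ | ⟨h3, h4⟩
      · exact ⟨a.h.1, a.h.2.1, a.h.2.2.1, by rw [h3]; exact hpi, by rw [h4]; exact hep, Or.inl he⟩
      · exact ⟨a.h.1, a.h.2.1, a.h.2.2.1, by rw [h3]; exact hep, by rw [h4]; exact hpi, Or.inl he⟩
    rw [car_uniq hT ha ⟨h1.1, Or.inr ⟨he, g1⟩⟩ a.h hc]
    exact ⟨h2.1, Or.inr ⟨he, g2⟩⟩
  by_cases hx0 : kd x = 0
  · rw [← hx'.eq hT hx0, hx.eq hT hx0]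
    exact ha
  by_cases hy0 : kd y = 0
  · rw [← hy'.eq hT hy0, hy.eq hT hy0]
    exact ha
  obtain ⟨h1, h2⟩ | ⟨h1, h2⟩ : (kd x = 1 ∧ kd y = 2) ∨ (kd x = 2 ∧ kd y = 1) := by omega
  · exact key x y h1 h2 h hx hx' (Or.inl ⟨hs, by rw [ht, hb.same _ h2]⟩)
  · exact key y x h2 h1 (X.symm _ _ h) hy hy' (Or.inr ⟨by rw [hs, hb.same _ h1], ht⟩)

theorem nb_ne {s t : St (sys hT) o} {a : Ar X kd} (h : Nb s a t) : s ≠ t := h.ne

/-- two arrows of transitions along the same edge are equal -/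
theorem rr_arr (hT : TC X kd τ) (hb : Bas X kd pi) {x y : W} (h : X.Edge x y) {a b : Ar X kd}
    (hs : a.s = pi x) (ht : a.t = pi y) (hs' : b.s = pi x) (ht' : b.t = pi y) {g g' : W}
    (hx : InC X kd g x) (hy : InC X kd g y) (ha : In X kd g a.c) (hx' : InC X kd g' x)
    (hy' : InC X kd g' y) (hb' : In X kd g' b.c) : a = b := by
  have h1 := rr_in hT hb h hs ht hx hy ha hx' hy'
  have h2 : Car X kd a.s b.c a.t := by
    rw [hs, ht, ← hs', ← ht']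
    exact b.h
  exact Ar.ext (hs.trans hs'.symm) (car_uniq hT h1 hb' a.h h2) (ht.trans ht'.symm)

theorem cvr (hT : TC X kd τ) (hb : Bas X kd pi) (o : W) :
    Cvr X (St (sys hT) o) (fun x s => s.lab = pi x) (RR hT pi o) where
  tot := by
    intro x y s h hs
    by_cases hpi : pi x = pi y
    · exact ⟨s, by rw [hs, hpi], Or.inl ⟨hpi, rfl⟩⟩
    · obtain ⟨g, hx, hy⟩ := exists_cell hT h
      obtain ⟨c, hc, hc'⟩ := car_exists hx.1 (hb.pt x) (hb.pt y) hpi (hb.cell _ _ hx)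
        (hb.cell _ _ hy)
      let a : Ar X kd := ⟨pi x, c, pi y, hc'⟩
      obtain ⟨t, ht⟩ := Nb.exists (K := sys hT) (s := s) (a := a) (by rw [hs]; rfl)
      exact ⟨t, ht.tgt.symm, Or.inr ⟨a, rfl, rfl, ⟨g, hx, hy, hc⟩, ht⟩⟩
  det := by
    rintro x y s t t' h hs ht ht' (⟨h1, rfl⟩ | ⟨a, h1, h2, ⟨g, h3, h4, h5⟩, h6⟩)
      (⟨h1', rfl⟩ | ⟨a', h1', h2', ⟨g', h3', h4', h5'⟩, h6'⟩)
    · rfl
    · exact (a'.h.2.2.1 (by rw [h1', h2', h1])).elim
    · exact (a.h.2.2.1 (by rw [h1, h2, h1'])).elim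
    · rw [rr_arr hT hb h h1 h2 h1' h2' h3 h4 h5 h3' h4' h5'] at h6
      exact h6.det h6'
  back := by
    rintro x y s t h hs ht (⟨h1, rfl⟩ | ⟨a, h1, h2, ⟨g, h3, h4, h5⟩, h6⟩)
    · exact Or.inl ⟨h1.symm, rfl⟩
    · exact Or.inr ⟨a.bar, h2, h1, ⟨g, h4, h3, h5⟩, h6.bar⟩
  tri := by
    rintro x y z s t r h hs ht hr h1 h2
    obtain ⟨g, gx, gy, gz⟩ := exists_cell3 hT h
    have norm : ∀ {u v : W} {s' t' : St (sys hT) o}, X.Edge u v → InC X kd g u → InC X kd g v →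
        RR hT pi o u v s' t' → (pi u = pi v ∧ s' = t') ∨ ∃ a : Ar X kd, a.s = pi u ∧ a.t = pi v ∧
          In X kd g a.c ∧ Nb s' a t' := by
      rintro u v s' t' huv gu gv (h | ⟨a, a1, a2, ⟨g', a3, a4, a5⟩, a6⟩)
      · exact Or.inl h
      · exact Or.inr ⟨a, a1, a2, rr_in hT hb huv a1 a2 a3 a4 a5 gu gv, a6⟩
    rcases norm (tri12 h) gx gy h1 with ⟨h3, rfl⟩ | ⟨a, a1, a2, a3, a4⟩
    · rcases norm (tri13 h) gx gz h2 with ⟨h4, rfl⟩ | ⟨b, b1, b2, b3, b4⟩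
      · exact Or.inl ⟨h3.symm.trans h4, rfl⟩
      · exact Or.inr ⟨b, b1.trans h3, b2, ⟨g, gy, gz, b3⟩, b4⟩
    · rcases norm (tri13 h) gx gz h2 with ⟨h4, rfl⟩ | ⟨b, b1, b2, b3, b4⟩
      · exact Or.inr ⟨a.bar, a2, a1.trans h4, ⟨g, gy, gz, a3⟩, a4.bar⟩
      · rcases same hT (a1.trans b1.symm) a3 b3 with h5 | ⟨c, c1, c2⟩
        · subst h5
          have h6 := a4.det b4
          subst h6
          exact Or.inl ⟨a2.symm.trans b2, rfl⟩
        · exact Or.inr ⟨c, c1.1.symm.trans a2, c1.2.2.1.trans b2, ⟨g, gy, gz, c2⟩,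
            Nb.tri (K := sys hT) c1 a4 b4⟩

/-- the arrows between the points of a cell lead from the state of the source to the state of the target -/
theorem sec_nb (hT : TC X kd τ) (hb : Bas X kd pi) {st : W → St (sys hT) o}
    (hst : ∀ x y, X.Edge x y → RR hT pi o x y (st x) (st y)) {g : W} {a : Ar X kd}
    (ha : In X kd g a.c) : Nb (st a.s) a (st a.t) := by
  have e1 := ha.edge_s hT a.h
  have e2 := ha.edge_t hT a.h
  have g0 : InC X kd g g := ⟨ha.1, Or.inl rfl⟩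
  have g1 : InC X kd g a.s := ⟨ha.1, Or.inr e1⟩
  have g2 : InC X kd g a.t := ⟨ha.1, Or.inr e2⟩
  have p1 := hb.same _ a.h.1
  have p2 := hb.same _ a.h.2.1
  have norm : ∀ {v : W} {s' t' : St (sys hT) o}, X.Edge g v → InC X kd g v →
      RR hT pi o g v s' t' → (pi g = pi v ∧ s' = t') ∨ ∃ a : Ar X kd, a.s = pi g ∧ a.t = pi v ∧
        In X kd g a.c ∧ Nb s' a t' := by
    rintro v s' t' huv gv (h | ⟨a, a1, a2, ⟨g', a3, a4, a5⟩, a6⟩)
    · exact Or.inl h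
    · exact Or.inr ⟨a, a1, a2, rr_in hT hb huv a1 a2 a3 a4 a5 g0 gv, a6⟩
  have key : ∀ b : Ar X kd, b.s = a.s → b.t = a.t → In X kd g b.c → b = a := by
    intro b hs ht hb'
    refine Ar.ext hs (car_uniq hT hb' ha b.h ?_) ht
    rw [hs, ht]
    exact a.h
  rcases norm e1 g1 (hst _ _ e1) with ⟨h3, h4⟩ | ⟨b, b1, b2, b3, b4⟩
  · rcases norm e2 g2 (hst _ _ e2) with ⟨h5, h6⟩ | ⟨c, c1, c2, c3, c4⟩
    · exact (a.h.2.2.1 (by rw [← p1, ← p2, ← h3, ← h5])).elim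
    · have hac := key c (by rw [c1, h3, p1]) (by rw [c2, p2]) c3
      rw [h4, hac] at c4
      exact c4
  · rcases norm e2 g2 (hst _ _ e2) with ⟨h5, h6⟩ | ⟨c, c1, c2, c3, c4⟩
    · have hab := key b.bar (by show b.t = _; rw [b2, p1]) (by show b.s = _; rw [b1, h5, p2]) b3
      have h7 := b4.bar
      rw [h6] at h7
      have h8 : (sys hT).bar b = a := hab
      rw [h8] at h7
      exact h7
    · rcases same hT (b1.trans c1.symm) b3 c3 with h7 | ⟨x, x1, x2⟩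
      · exact (a.h.2.2.1 (by rw [← p1, ← p2, ← b2, ← c2, h7])).elim
      · have hax := key x (by rw [← x1.1, b2, p1]) (by rw [x1.2.2.1, c2, p2]) x2
        have h8 := Nb.tri (K := sys hT) x1 b4 c4
        rw [hax] at h8
        exact h8

end

/-- every carrier is in a cell -/
theorem car_cell (hT : TC X kd τ) (a : Ar X kd) : ∃ g, In X kd g a.c := by
  rcases a.h.2.2.2.2.2 with h | h
  · obtain ⟨g, hg, hg'⟩ := hT.cell _ _ h a.h.1 a.h.2.2.2.1
    exact ⟨g, hg, Or.inr ⟨h, hg'⟩⟩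
  · exact ⟨a.c, h.1, Or.inl rfl⟩

/-- **Levels.** A simply connected typed complex with an edge has levels. -/
theorem exists_levels (hT : TC X kd τ) (hsc : X.SC) (hne : ∃ a b, X.Edge a b) :
    ∃ (lev : W → ℕ) (o : W), Lv X kd lev o := by
  have hpi := exists_pi hT hsc hne
  choose pi p1 p2 p3 p4 using hpi
  have hb : Bas X kd pi := ⟨p1, p2, p3, p4⟩
  obtain ⟨a₀, b₀, h₀⟩ := hne
  let o : W := pi a₀
  have hpo : pi o = o := p2 _ (p1 _)
  let s₀ : St (sys hT) o := ⟨0, ()⟩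
  have hlab : s₀.lab = pi o := hpo.symm
  obtain ⟨st, st0, stF, stR⟩ := (cvr hT hb o).exists_section hsc o s₀ hlab
  have nb : ∀ a : Ar X kd, Nb (st a.s) a (st a.t) := by
    intro a
    obtain ⟨g, hg⟩ := car_cell hT a
    exact sec_nb hT hb stR hg
  have lab : ∀ p, kd p = 2 → (st p).lab = p := fun p hp => (stF p).trans (p2 p hp)
  have tgt : ∀ (a : Ar X kd) (t : St (sys hT) o), Nb (st a.s) a t → t = st a.t :=
    fun a t h => h.det (nb a)
  have src : ∀ (p : W) (a : Ar X kd) (t : St (sys hT) o), kd p = 2 → Nb (st p) a t → a.s = p :=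
    fun p a t hp h => h.src.trans (lab p hp)
  refine ⟨fun x => (st x).ht, o, ⟨p1 _, ?_, ?_, ?_, ?_, ?_, ?_, ?_⟩⟩
  · intro p c hp hc hcp hl
    have h1 : ∀ s : St (sys hT) o, s.ht = 0 → s.lab = o := by
      rintro ⟨n, s⟩ hn
      have hn' : n = 0 := hn
      subst hn'
      rfl
    rw [← lab p hp]
    exact h1 _ hl
  · show (st o).ht = 0
    rw [st0]
    rfl
  · intro c p q hc hp hq hcp hcq
    show (st p).ht ≤ (st q).ht + 1
    by_cases hpq : p = q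
    · rw [hpq]; omega
    · obtain ⟨c', h1, h2⟩ := car_exists hc hp hq hpq hcp hcq
      have := (nb ⟨p, c', q, h2⟩).cases
      simp only at this
      omega
  · intro c p hc hp hcp hl
    obtain ⟨t, a, hn, ht⟩ : ∃ (t : St (sys hT) o) (a : Ar X kd), Nb (st p) a t ∧
        t.ht + 1 = (st p).ht := by
      have : ∀ s : St (sys hT) o, s.ht ≠ 0 → ∃ (t : St (sys hT) o) (a : Ar X kd), Nb s a t ∧
          t.ht + 1 = s.ht := by
        rintro ⟨n, s⟩ hn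
        cases n with
        | zero => exact (hn rfl).elim
        | succ n =>
          obtain ⟨p', a, h⟩ := (nxt (sys hT) o n).ne s
          refine ⟨⟨n, p'⟩, a.bar, ?_, rfl⟩
          exact Nb.down s p' _ h
      exact this _ hl
    have hs := src p a t hp hn
    subst hs
    have h2 := tgt a t hn
    subst h2
    obtain ⟨g, hg⟩ := car_cell hT a
    exact ⟨g, a.t, hg.1, a.h.2.1, hg.edge_s hT a.h, hg.edge_t hT a.h, ht⟩
  · intro c c' p q q' hc hc' hp hq hq' e1 e2 e3 e4 l1 l2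
    have n1 : p ≠ q := fun h => by rw [h] at l1; omega
    have n2 : p ≠ q' := fun h => by rw [h] at l2; omega
    obtain ⟨d, h1, h2⟩ := car_exists hc hp hq n1 e1 e2
    obtain ⟨d', h3, h4⟩ := car_exists hc' hp hq' n2 e3 e4
    rcases down_down (nb ⟨p, d, q, h2⟩) (nb ⟨p, d', q', h4⟩) l1 l2 with h | ⟨x, h⟩
    · have : q = q' := congrArg Ar.t h
      subst this
      exact ⟨c, hc, e1, e2, e2⟩
    · obtain ⟨g, g1, g2, g3⟩ := h.2.2.2
      exact ⟨g, g1.1, g1.edge_s hT h2, g1.edge_t hT h2, g3.edge_t hT h4⟩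
  · intro c p q hc hp hq e1 e2 hpq hl
    obtain ⟨d, h1, h2⟩ := car_exists hc hp hq hpq e1 e2
    obtain ⟨a, t, h3, h4, x, h5⟩ := level_down (nb ⟨p, d, q, h2⟩) hl.symm
    have hs := src p a t hp h3
    have h6 : Nb (st a.s) a t := by rw [hs]; exact h3
    have h7 := tgt a t h6
    obtain ⟨g, g1, g2, g3⟩ := h5.2.2.2
    refine ⟨g, a.t, g1.1, a.h.2.1, ?_, g3.edge_t hT h2, g1.edge_t hT a.h, ?_⟩
    · have := g1.edge_s hT a.h
      rwa [hs] at this
    · rw [← h7]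
      exact h4
  · intro c c' p q hc hc' hp hq hpq e1 e2 e3 e4
    obtain ⟨d, h1, h2⟩ := car_exists hc hp hq hpq e1 e2
    obtain ⟨d', h3, h4⟩ := car_exists hc' hp hq hpq e3 e4
    have h5 := (nb ⟨p, d, q, h2⟩).arr (nb ⟨p, d', q, h4⟩)
    have h6 : d = d' := congrArg Ar.c h5
    subst h6
    rcases h2.2.2.2.2.2 with h7 | h7
    · right
      exact ⟨d, h7, h1.tri hT h7 hp h2.2.2.2.1, h1.tri hT h7 hq h2.2.2.2.2.1,
        h3.tri hT h7 hp h2.2.2.2.1, h3.tri hT h7 hq h2.2.2.2.2.1⟩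
    · left
      rw [← Ar.In.cell h1 h7.1, ← Ar.In.cell h3 h7.1]

end Pool.Agent.H59.DE
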