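import Pool.Agent.H54.CX.Main
import Pool.Agent.H98.FJ.P.Ext0

/-!
# Typed complexes: cells, hyperedges, points

The vertices of the complex have a kind: `0` for the cells, `1` for the hyperedges and `2` for the points. Every triangle
consists of a cell, a hyperedge of the cell and a point of the hyperedge, it has the angles `π / 3` (cell), `π / 2`
(hyperedge) and `π / 6` (point). The Deligne complex of an Artin group of large type is the basic example: cells are
the elements, hyperedges the cosets of the cyclic subgroups of the generators, points the cosets of the dihedral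
parabolic subgroups.
-/

set_option autoImplicit false

namespace Pool.Agent.H59.DE

open Pool.Agent.H54.CX Pool.Agent.H98.FJ

/-- the lengths of the sides of the triangles -/
noncomputable def L : ℕ → ℕ → ℝ
  | 0, 1 => 1
  | 1, 0 => 1
  | 0, 2 => 2
  | 2, 0 => 2
  | _, _ => Real.sqrt 3

/-- Typed complexes: `kd` is the kind and `τ` the type of a vertex. All conditions are conditions on edges and
triangles, so isolated vertices are allowed. -/
structure TC {W T : Type} (X : Cpx W) (kd : W → ℕ) (τ : W → T) : Prop where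
  kd_le : ∀ x, kd x ≤ 2
  kd_ne : ∀ x y, X.Edge x y → kd x ≠ kd y
  /-- the type determines the kind -/
  kd_τ : ∀ x y, τ x = τ y → kd x = kd y
  len : ∀ x y, X.Edge x y → X.len x y = L (kd x) (kd y)
  /-- the points of a hyperedge are points of all cells around the hyperedge -/
  fill : ∀ g e p, kd g = 0 → kd e = 1 → kd p = 2 → X.Edge g e → X.Edge e p → X.Tri g e p
  /-- a hyperedge with a point is the hyperedge of a cell -/
  cell : ∀ e p, kd e = 1 → kd p = 2 → X.Edge e p → ∃ g, kd g = 0 ∧ X.Edge g e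
  /-- the hyperedges and points of a cell have different types -/
  inj : ∀ g x y, kd g = 0 → X.Edge g x → X.Edge g y → τ x = τ y → x = y
  /-- a point of a cell is on exactly two hyperedges of the cell -/
  two : ∀ g p, kd g = 0 → kd p = 2 → X.Edge g p → ∃ e e', e ≠ e' ∧ kd e = 1 ∧ kd e' = 1 ∧
    X.Tri g e p ∧ X.Tri g e' p ∧ ∀ x, X.Tri g x p → x = e ∨ x = e'
  /-- a hyperedge has at least two points -/
  pts : ∀ g e, kd g = 0 → kd e = 1 → X.Edge g e → ∃ p q, p ≠ q ∧ kd p = 2 ∧ kd q = 2 ∧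
    X.Tri g e p ∧ X.Tri g e q
  /-- two hyperedges of a cell have at most one common point -/
  lg : ∀ g e e' p q, kd g = 0 → kd e = 1 → kd e' = 1 → kd p = 2 → kd q = 2 → e ≠ e' →
    X.Tri g e p → X.Tri g e' p → X.Tri g e q → X.Tri g e' q → p = q
  /-- the hyperedges at a point have at most two types -/
  bip : ∀ p e e' e'', kd p = 2 → kd e = 1 → kd e' = 1 → kd e'' = 1 → X.Edge e p → X.Edge e' p →
    X.Edge e'' p → τ e = τ e' ∨ τ e' = τ e'' ∨ τ e = τ e''
  /-- two cells have at most one common hyperedge at a point -/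
  l2 : ∀ p e e' g g', kd p = 2 → kd e = 1 → kd e' = 1 → kd g = 0 → kd g' = 0 → e ≠ e' →
    X.Tri g e p → X.Tri g e' p → X.Tri g' e p → X.Tri g' e' p → g = g'
  /-- there are no closed paths with four hyperedges in the link of a point -/
  l4 : ∀ p e₁ e₂ e₃ e₄ g₁ g₂ g₃ g₄, kd p = 2 → kd e₁ = 1 → kd e₂ = 1 → kd e₃ = 1 → kd e₄ = 1 →
    kd g₁ = 0 → kd g₂ = 0 → kd g₃ = 0 → kd g₄ = 0 →
    X.Tri g₁ e₁ p → X.Tri g₁ e₂ p → X.Tri g₂ e₂ p → X.Tri g₂ e₃ p →
    X.Tri g₃ e₃ p → X.Tri g₃ e₄ p → X.Tri g₄ e₄ p → X.Tri g₄ e₁ p →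
    e₁ ≠ e₂ → e₂ ≠ e₃ → e₃ ≠ e₄ → e₄ ≠ e₁ → e₁ = e₃ ∨ e₂ = e₄

/-- The group acts by automorphisms which preserve the types; the stabilisers of the cells are trivial. -/
structure TAct {W T : Type} (X : Cpx W) (kd : W → ℕ) (τ : W → T) (G : Type) [Group G]
    [MulAction G W] : Prop where
  inv : X.Inv G
  type : ∀ (g : G) (x : W), τ (g • x) = τ x
  free : ∀ (g : G) (c : W), kd c = 0 → g • c = c → g = 1

/-- every cell has finitely many hyperedges and points -/
def FinCell {W : Type} (X : Cpx W) (kd : W → ℕ) : Prop := ∀ c, kd c = 0 → {x | X.Edge c x}.Finite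

/-- The closing property: if `n` fixes the point `p` and there is a path of length two or four from the hyperedge `e`
to `n • e` in the link of `p` then `n` fixes a hyperedge of the path. -/
structure CL {W : Type} (X : Cpx W) (kd : W → ℕ) (N : Type) [Group N] [MulAction N W] : Prop where
  two : ∀ (n : N) p e e₁ g₁ g₂, kd p = 2 → kd e = 1 → kd e₁ = 1 → kd g₁ = 0 → kd g₂ = 0 →
    n • p = p → X.Tri g₁ e p → X.Tri g₁ e₁ p → X.Tri g₂ e₁ p → X.Tri g₂ (n • e) p →
    n • e = e ∨ n • e₁ = e₁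
  four : ∀ (n : N) p e e₁ e₂ e₃ g₁ g₂ g₃ g₄, kd p = 2 → kd e = 1 → kd e₁ = 1 → kd e₂ = 1 →
    kd e₃ = 1 → kd g₁ = 0 → kd g₂ = 0 → kd g₃ = 0 → kd g₄ = 0 →
    n • p = p → X.Tri g₁ e p → X.Tri g₁ e₁ p → X.Tri g₂ e₁ p → X.Tri g₂ e₂ p →
    X.Tri g₃ e₂ p → X.Tri g₃ e₃ p → X.Tri g₄ e₃ p → X.Tri g₄ (n • e) p →
    n • e = e ∨ n • e₁ = e₁ ∨ n • e₂ = e₂ ∨ n • e₃ = e₃

/-- a nontrivial stabiliser of a hyperedge is the stabiliser of all points of the hyperedge -/
def Full {W : Type} (X : Cpx W) (kd : W → ℕ) (N : Type) [Group N] [MulAction N W] : Prop :=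
  ∀ (e p : W) (n : N), kd e = 1 → kd p = 2 → X.Edge e p → n ≠ 1 → n • e = e →
    ∀ n' : N, n' • p = p → n' • e = e

/-- the group is generated by the elements with a fixed vertex -/
def Gen (N W : Type) [Group N] [MulAction N W] : Prop :=
  Subgroup.closure {n : N | ∃ v : W, n • v = v} = ⊤

/-- Levels of the points of a typed complex. -/
structure Lv {W : Type} (X : Cpx W) (kd : W → ℕ) (lev : W → ℕ) (o : W) : Prop where
  base : kd o = 2
  zero : ∀ p c, kd p = 2 → kd c = 0 → X.Edge c p → lev p = 0 → p = o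
  base_zero : lev o = 0
  /-- the levels of two points of a cell differ by at most one -/
  adj : ∀ c p q, kd c = 0 → kd p = 2 → kd q = 2 → X.Edge c p → X.Edge c q → lev p ≤ lev q + 1
  /-- there is a descending neighbour -/
  down : ∀ c p, kd c = 0 → kd p = 2 → X.Edge c p → lev p ≠ 0 →
    ∃ c' q, kd c' = 0 ∧ kd q = 2 ∧ X.Edge c' p ∧ X.Edge c' q ∧ lev q + 1 = lev p
  /-- two descending neighbours are in a common cell with the point -/
  dd : ∀ c c' p q q', kd c = 0 → kd c' = 0 → kd p = 2 → kd q = 2 → kd q' = 2 →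
    X.Edge c p → X.Edge c q → X.Edge c' p → X.Edge c' q' → lev q + 1 = lev p →
    lev q' + 1 = lev p → ∃ c'', kd c'' = 0 ∧ X.Edge c'' p ∧ X.Edge c'' q ∧ X.Edge c'' q'
  /-- two points of the same level in a cell have a common descending neighbour -/
  ld : ∀ c p q, kd c = 0 → kd p = 2 → kd q = 2 → X.Edge c p → X.Edge c q → p ≠ q → lev p = lev q →
    ∃ c' r, kd c' = 0 ∧ kd r = 2 ∧ X.Edge c' p ∧ X.Edge c' q ∧ X.Edge c' r ∧ lev r + 1 = lev p
  /-- two cells with two common points have a common hyperedge which contains the points -/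
  com : ∀ c c' p q, kd c = 0 → kd c' = 0 → kd p = 2 → kd q = 2 → p ≠ q → X.Edge c p → X.Edge c q →
    X.Edge c' p → X.Edge c' q → c = c' ∨ ∃ e, kd e = 1 ∧ X.Tri c e p ∧ X.Tri c e q ∧
      X.Tri c' e p ∧ X.Tri c' e q

end Pool.Agent.H59.DE
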