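import Pool.Agent.H54.CX.Main

/-!
# Ranks with rooted descending links

The group `N` acts on the simply connected complex `X`; the vertices have a rank, and for every vertex `x` the graph of
the neighbours of smaller rank (the descending link) is a rooted forest: `δ x y` is the distance of the neighbour `y`
to the root. Then `N` acts on a tree, and it is free if the stabilisers of the vertices are free.
-/

set_option autoImplicit false

namespace Pool.Agent.H59.DE

open Pool.Agent.H54.CX

variable {V : Type}

/-- `a` is a root of the descending link of `x` -/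
def Par (X : Cpx V) {α : Type} [LinearOrder α] (rk : V → α) (δ : V → V → ℕ) (x a : V) : Prop :=
  X.Edge x a ∧ rk a < rk x ∧ ∀ z, X.Tri x a z → rk z < rk x → δ x a < δ x z

/-- a rank with rooted descending links -/
structure Sh (X : Cpx V) (N : Type) [Group N] [MulAction N V] {α : Type} [LinearOrder α]
    (rk : V → α) (δ : V → V → ℕ) (o : V) : Prop where
  rk_ne : ∀ x y, X.Edge x y → rk x ≠ rk y
  rk_inv : ∀ (n : N) x, rk (n • x) = rk x
  dp_inv : ∀ (n : N) x y, δ (n • x) (n • y) = δ x y
  dp_ne : ∀ x y z, X.Tri x y z → rk y < rk x → rk z < rk x → δ x y ≠ δ x z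
  dp_uniq : ∀ x y z z', X.Tri x y z → X.Tri x y z' → rk y < rk x → rk z < rk x → rk z' < rk x →
    δ x z < δ x y → δ x z' < δ x y → z = z'
  /-- the roots are one orbit -/
  orb : ∀ x a a', Par X rk δ x a → Par X rk δ x a' → ∃ n : N, n • x = x ∧ n • a = a'
  /-- the stabiliser of `x` fixes the root or acts freely on the roots -/
  stab : ∀ x a, Par X rk δ x a → (∀ n : N, n • x = x → n • a = a → n = 1) ∨
    ∀ n : N, n • x = x → n • a = a
  /-- the vertices without descending neighbours are one orbit -/
  base : ∀ x, (∀ y, X.Edge x y → ¬ rk y < rk x) → ∃ n : N, n • o = x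

end Pool.Agent.H59.DE
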