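import Pool.Agent.H59.DE.Sys

/-!
# Levels of the universal cover

A level consists of states; a state `p` has a label `f p`, descending arrows `dn p a` and level arrows `lv p a q` from
`p` to `q`. The other arrows which start at `f p` are ascending. A state of the next level is a set `u` of pairs of a
state and an ascending arrow: all pairs `(q, b)` where `q = p`, `b = a` or `p`, `q` are joined by a level arrow `e` and
`e` followed by `b` is `a`.
-/

set_option autoImplicit false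

namespace Pool.Agent.H59.DE

open Sys

variable {V A : Type} {K : Sys V A}

/-- one level of the universal cover -/
structure Lev (K : Sys V A) where
  /-- the states -/
  S : Type
  /-- the label of a state -/
  f : S → V
  /-- the descending arrows -/
  dn : S → A → Prop
  /-- the level arrows -/
  lv : S → A → S → Prop

namespace Lev

/-- the ascending arrows -/
def Asc (L : Lev K) (p : L.S) (a : A) : Prop :=
  K.src a = L.f p ∧ ¬ L.dn p a ∧ ∀ q, ¬ L.lv p a q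

/-- the pairs `(q, b)` of the state of the next level given by the ascending arrow `a` at `p` -/
def New (L : Lev K) (p : L.S) (a : A) (q : L.S) (b : A) : Prop :=
  (q = p ∧ b = a) ∨ ∃ e, L.lv p e q ∧ K.T e b a

/-- the invariants -/
structure Good (L : Lev K) : Prop where
  dn_src : ∀ p a, L.dn p a → K.src a = L.f p
  lv_src : ∀ p a q, L.lv p a q → K.src a = L.f p ∧ K.src (K.bar a) = L.f q
  lv_bar : ∀ p a q, L.lv p a q → L.lv q (K.bar a) p
  lv_det : ∀ p a q q', L.lv p a q → L.lv p a q' → q = q'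
  lv_ne : ∀ p a, ¬ L.lv p a p
  lv_arr : ∀ p a b q, L.lv p a q → L.lv p b q → a = b
  dn_lv : ∀ p a q, L.dn p a → ¬ L.lv p a q
  dn_dn : ∀ p a b, L.dn p a → L.dn p b → a = b ∨ K.Lk a b
  dn_lk : ∀ p a b, L.dn p a → K.Lk a b → L.dn p b ∨ ∃ q, L.lv p b q
  lv_dn : ∀ p b q, L.lv p b q → ∃ a, L.dn p a ∧ K.Lk a b
  lv_comp : ∀ p a b c q, L.dn p a → L.lv p b q → K.T a c b → L.dn q (K.bar c)
  lv_tri : ∀ p e e' x q r, L.lv p e q → L.lv p e' r → K.T e x e' → L.lv q x r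

variable {L : Lev K}

/-- an ascending arrow is not linked to a descending arrow -/
theorem Good.asc_dn (hL : L.Good) {p : L.S} {a d : A} (ha : L.Asc p a) (hd : L.dn p d) :
    ¬ K.Lk d a := by
  intro h
  rcases hL.dn_lk _ _ _ hd h with h1 | ⟨q, h1⟩
  · exact ha.2.1 h1
  · exact ha.2.2 _ h1

/-- two level arrows which are linked to the same ascending arrow and to the same descending arrow -/
theorem Good.asc_same (hL : L.Good) {p q r : L.S} {a e e' d : A} (ha : L.Asc p a)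
    (h1 : K.Lk e a) (h2 : K.Lk e' a) (hd : L.dn p d) (h3 : K.Lk d e) (h4 : K.Lk d e') :
    e = e' ∨ K.Lk e e' := by
  rcases n4 h1 h2.symm h4.symm h3 with h | h | h | h
  · exact Or.inl h
  · subst h
    exact (ha.2.1 hd).elim
  · exact Or.inr h
  · exact (hL.asc_dn ha hd h.symm).elim

/-- two level arrows which are linked to the same ascending arrow are equal or linked -/
theorem Good.asc_uniq (hL : L.Good) {p q r : L.S} {a e e' : A} (ha : L.Asc p a) (h : L.lv p e q)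
    (h' : L.lv p e' r) (h1 : K.Lk e a) (h2 : K.Lk e' a) : e = e' ∨ K.Lk e e' := by
  obtain ⟨d, hd, hde⟩ := hL.lv_dn _ _ _ h
  obtain ⟨d', hd', hde'⟩ := hL.lv_dn _ _ _ h'
  rcases hL.dn_dn _ _ _ hd hd' with h3 | h3
  · subst h3
    exact hL.asc_same (q := q) (r := r) ha h1 h2 hd hde hde'
  · rcases n5 h1 h2.symm hde'.symm h3.symm hde with h4 | h4 | h4 | h4 | h4 | h4 | h4 | h4 | h4 | h4
    · exact Or.inl h4
    · subst h4
      exact (ha.2.1 hd').elim
    · subst h4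
      exact (hL.dn_lv _ _ _ hd h').elim
    · subst h4
      exact (hL.dn_lv _ _ _ hd' h).elim
    · subst h4
      exact (ha.2.1 hd).elim
    · exact Or.inr h4
    · exact (hL.asc_dn ha hd' h4.symm).elim
    · exact hL.asc_same (q := q) (r := r) ha h1 h2 hd hde h4.symm
    · exact hL.asc_same (q := q) (r := r) ha h1 h2 hd' h4 hde'
    · exact (hL.asc_dn ha hd h4).elim

/-- the other pair is ascending as well -/
theorem Good.asc_other (hL : L.Good) {p q : L.S} {a b e : A} (ha : L.Asc p a) (h : L.lv p e q)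
    (h1 : K.T e b a) : L.Asc q b := by
  have h2 := K.comp _ _ _ h1
  have h3 : K.T (K.bar e) a b := K.rot _ _ _ h1
  have h4 := hL.lv_bar _ _ _ h
  refine ⟨?_, ?_, ?_⟩
  · rw [h2.1]; exact (hL.lv_src _ _ _ h).2
  · intro hd
    have h5 : K.T b (K.bar a) (K.bar e) := sym h3
    have h6 := hL.lv_comp _ _ _ _ _ hd h4 h5
    rw [K.bar_bar] at h6
    exact ha.2.1 h6
  · intro r hr
    exact ha.2.2 _ (hL.lv_tri _ _ _ _ _ _ h4 hr h3)

theorem Good.new_asc (hL : L.Good) {p q : L.S} {a b : A} (ha : L.Asc p a) (h : L.New p a q b) :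
    L.Asc q b := by
  rcases h with ⟨rfl, rfl⟩ | ⟨e, h, h1⟩
  · exact ha
  · exact hL.asc_other ha h h1

theorem Good.new_symm (hL : L.Good) {p q : L.S} {a b : A} (h : L.New p a q b) :
    L.New q b p a := by
  rcases h with ⟨rfl, rfl⟩ | ⟨e, h, h1⟩
  · exact Or.inl ⟨rfl, rfl⟩
  · exact Or.inr ⟨_, hL.lv_bar _ _ _ h, K.rot _ _ _ h1⟩

theorem Good.new_trans (hL : L.Good) {p q r : L.S} {a b c : A} (ha : L.Asc p a)
    (h : L.New p a q b) (h' : L.New q b r c) : L.New p a r c := by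
  have hb := hL.new_asc ha h
  rcases h with ⟨rfl, rfl⟩ | ⟨e, h, h1⟩
  · exact h'
  · rcases h' with ⟨rfl, rfl⟩ | ⟨e', h', h2⟩
    · exact Or.inr ⟨e, h, h1⟩
    · have h3 : K.T (K.bar e) a b := K.rot _ _ _ h1
      have h4 := hL.lv_bar _ _ _ h
      rcases hL.asc_uniq hb h4 h' ⟨_, h3⟩ ⟨_, h2⟩ with h5 | ⟨x, h5⟩
      · subst h5
        have h6 := hL.lv_det _ _ _ _ h' h4
        subst h6
        have h7 := K.uniq _ _ _ _ h2 h3
        subst h7
        exact Or.inl ⟨rfl, rfl⟩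
      · refine Or.inr ⟨x, hL.lv_tri _ _ _ _ _ _ h4 h' h5, ?_⟩
        exact K.flag _ _ _ _ _ _ h5 h2 h3

theorem Good.new_eq (hL : L.Good) {p q : L.S} {a b : A} (ha : L.Asc p a) (h : L.New p a q b)
    (r : L.S) (c : A) : L.New q b r c ↔ L.New p a r c :=
  ⟨hL.new_trans ha h, hL.new_trans (hL.new_asc ha h) (hL.new_symm h)⟩

theorem Good.new_tgt (hL : L.Good) {p q : L.S} {a b : A} (h : L.New p a q b) :
    K.src (K.bar b) = K.src (K.bar a) := by
  rcases h with ⟨rfl, rfl⟩ | ⟨e, h, h1⟩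
  · rfl
  · exact (K.comp _ _ _ h1).2.2.symm

theorem Good.new_uniq (hL : L.Good) {p : L.S} {a b : A} (h : L.New p a p b) : b = a := by
  rcases h with ⟨-, h⟩ | ⟨e, h, -⟩
  · exact h
  · exact absurd h (hL.lv_ne _ _)

/-- The relation between a level and the next level: `M u p a` means that `(p, a)` is one of the pairs of `u`. -/
structure IsNext (L L' : Lev K) (M : L'.S → L.S → A → Prop) : Prop where
  ex : ∀ p a, L.Asc p a → ∃ u, M u p a
  ne : ∀ u, ∃ p a, M u p a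
  asc : ∀ u p a, M u p a → L.Asc p a
  lab : ∀ u p a, M u p a → L'.f u = K.src (K.bar a)
  det : ∀ u w p a, M u p a → M w p a → u = w
  uniq : ∀ u p a b, M u p a → M u p b → a = b
  pair : ∀ u p a q b, M u p a → M u q b → (q = p ∧ b = a) ∨ ∃ e, L.lv p e q ∧ K.T e b a
  close : ∀ u p a e q b, M u p a → L.lv p e q → K.T e b a → M u q b
  dn_iff : ∀ u x, L'.dn u x ↔ ∃ p, M u p (K.bar x)
  lv_iff : ∀ u x w, L'.lv u x w ↔ ∃ p a b, M u p a ∧ M w p b ∧ K.T a x b

/-- the next level -/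
noncomputable def next (L : Lev K) : Lev K where
  S := {u : L.S → A → Prop // ∃ p a, L.Asc p a ∧ ∀ q b, u q b ↔ L.New p a q b}
  f u := K.src (K.bar u.2.choose_spec.choose)
  dn u x := ∃ p, u.1 p (K.bar x)
  lv u x w := ∃ p a b, u.1 p a ∧ w.1 p b ∧ K.T a x b

theorem isNext (hL : L.Good) : IsNext L (next L) (fun u p a => u.1 p a) where
  ex p a h := ⟨⟨L.New p a, p, a, h, fun _ _ => Iff.rfl⟩, Or.inl ⟨rfl, rfl⟩⟩
  ne := by
    rintro ⟨u, p, a, h, hu⟩
    exact ⟨p, a, (hu p a).2 (Or.inl ⟨rfl, rfl⟩)⟩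
  asc := by
    rintro ⟨u, p, a, h, hu⟩ q b hq
    exact hL.new_asc h ((hu q b).1 hq)
  lab := by
    rintro u q b hq
    have h1 := u.2.choose_spec.choose_spec
    exact (hL.new_tgt ((h1.2 q b).1 hq)).symm
  det := by
    rintro ⟨u, p, a, h, hu⟩ ⟨w, p', a', h', hw⟩ q b hq hq'
    apply Subtype.ext
    funext r c
    apply propext
    have h1 := hL.new_eq h ((hu q b).1 hq) r c
    have h2 := hL.new_eq h' ((hw q b).1 hq') r c
    show u r c ↔ w r c
    rw [hu, hw, ← h1, ← h2]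
  uniq := by
    rintro ⟨u, p, a, h, hu⟩ q b c hb hc
    have h1 := (hu q b).1 hb
    have h2 := (hu q c).1 hc
    exact (hL.new_uniq (hL.new_trans (hL.new_asc h h1) (hL.new_symm h1) h2)).symm
  pair := by
    rintro ⟨u, p, a, h, hu⟩ q b r c hb hc
    have h1 := (hu q b).1 hb
    have h2 := (hu r c).1 hc
    exact hL.new_trans (hL.new_asc h h1) (hL.new_symm h1) h2
  close := by
    rintro ⟨u, p, a, h, hu⟩ q b e r c hb he ht
    have h1 := (hu q b).1 hb
    exact (hu r c).2 (hL.new_trans h h1 (Or.inr ⟨e, he, ht⟩))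
  dn_iff u x := Iff.rfl
  lv_iff u x w := Iff.rfl

namespace IsNext

variable {L' : Lev K} {M : L'.S → L.S → A → Prop}

/-- two pairs of a state of the next level with different states -/
theorem link2 (h : IsNext L L' M) {u : L'.S} {p q : L.S} {a b : A} (hp : M u p a)
    (hq : M u q b) (hne : q ≠ p) : ∃ e, L.lv p e q ∧ K.T e b a ∧ K.T (K.bar a) e (K.bar b) := by
  rcases h.pair _ _ _ _ _ hp hq with h1 | ⟨e, he, he'⟩
  · exact absurd h1.1 hne
  · refine ⟨e, he, he', ?_⟩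
    have := sym (K.rev _ _ _ he')
    rwa [K.bar_bar] at this

theorem link (h : IsNext L L' M) {u : L'.S} {p q : L.S} {a b : A} (hp : M u p a)
    (hq : M u q b) (hne : q ≠ p) : K.Lk (K.bar a) (K.bar b) := by
  obtain ⟨e, -, -, h1⟩ := h.link2 hp hq hne
  exact ⟨_, h1⟩

theorem src_dn (h : IsNext L L' M) {u : L'.S} {x : A} (hx : L'.dn u x) :
    K.src x = L'.f u := by
  obtain ⟨p, hp⟩ := (h.dn_iff _ _).1 hx
  rw [h.lab _ _ _ hp, K.bar_bar]

theorem lv_src (h : IsNext L L' M) {u w : L'.S} {x : A} (hx : L'.lv u x w) :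
    K.src x = L'.f u ∧ K.src (K.bar x) = L'.f w := by
  obtain ⟨p, a, b, ha, hb, ht⟩ := (h.lv_iff _ _ _).1 hx
  have h1 := K.comp _ _ _ ht
  rw [h.lab _ _ _ ha, h.lab _ _ _ hb]
  exact ⟨h1.1, h1.2.2.symm⟩

theorem lv_bar (h : IsNext L L' M) {u w : L'.S} {x : A} (hx : L'.lv u x w) :
    L'.lv w (K.bar x) u := by
  obtain ⟨p, a, b, ha, hb, ht⟩ := (h.lv_iff _ _ _).1 hx
  exact (h.lv_iff _ _ _).2 ⟨p, b, a, hb, ha, sym ht⟩

theorem dn_dn (h : IsNext L L' M) {u : L'.S} {x y : A} (hx : L'.dn u x) (hy : L'.dn u y) :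
    x = y ∨ K.Lk x y := by
  obtain ⟨p, hp⟩ := (h.dn_iff _ _).1 hx
  obtain ⟨q, hq⟩ := (h.dn_iff _ _).1 hy
  by_cases hne : q = p
  · subst hne
    exact Or.inl (bar_inj (h.uniq _ _ _ _ hp hq))
  · have := h.link hp hq hne
    rw [K.bar_bar, K.bar_bar] at this
    exact Or.inr this

/-- compatibility of the descending arrows with the triangles on a level arrow -/
theorem comp (h : IsNext L L' M) (hL : L.Good) {u w : L'.S} {p : L.S} {y x c : A}
    (hy : M u p (K.bar y)) (hx : L'.lv u x w) (ht : K.T y c x) : M w p c := by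
  obtain ⟨q, a, b, ha, hb, ht'⟩ := (h.lv_iff _ _ _).1 hx
  by_cases hne : q = p
  · subst hne
    have h1 := h.uniq _ _ _ _ ha hy
    subst h1
    have h2 := K.rot _ _ _ ht'
    rw [K.bar_bar] at h2
    have h3 := K.uniq _ _ _ _ ht h2
    subst h3
    exact hb
  · obtain ⟨e, he, he', h1⟩ := h.link2 hy ha hne
    rw [K.bar_bar] at h1
    have h2 : K.T e b c := K.flag _ _ _ _ _ _ h1 (K.rot _ _ _ ht') ht
    exact h.close _ _ _ _ _ _ hb (hL.lv_bar _ _ _ he) (K.rot _ _ _ h2)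

theorem lv_det (h : IsNext L L' M) (hL : L.Good) {u w w' : L'.S} {x : A} (hx : L'.lv u x w)
    (hx' : L'.lv u x w') : w = w' := by
  obtain ⟨p, a, b, ha, hb, ht⟩ := (h.lv_iff _ _ _).1 hx
  have ha' : M u p (K.bar (K.bar a)) := by rwa [K.bar_bar]
  exact h.det _ _ _ _ hb (h.comp hL ha' hx' (K.rot _ _ _ ht))

theorem lv_ne (h : IsNext L L' M) {u : L'.S} {x : A} : ¬ L'.lv u x u := by
  intro hx
  obtain ⟨p, a, b, ha, hb, ht⟩ := (h.lv_iff _ _ _).1 hx
  have h1 := h.uniq _ _ _ _ ha hb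
  subst h1
  exact K.no1 _ _ ht

theorem dn_lv (h : IsNext L L' M) {u w : L'.S} {x : A} (hd : L'.dn u x) :
    ¬ L'.lv u x w := by
  intro hx
  obtain ⟨p, a, b, ha, hb, ht⟩ := (h.lv_iff _ _ _).1 hx
  obtain ⟨q, hq⟩ := (h.dn_iff _ _).1 hd
  by_cases hne : q = p
  · subst hne
    have h1 := h.uniq _ _ _ _ ha hq
    rw [h1] at ht
    have h2 := K.rot _ _ _ ht
    rw [K.bar_bar] at h2
    exact K.no1 _ _ h2
  · rcases h.pair _ _ _ _ _ ha hq with h1 | ⟨e, he, he'⟩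
    · exact hne h1.1
    · have h2 : K.T a x e := by
        have := sym he'
        rwa [K.bar_bar] at this
      have h3 := uniq3 ht h2
      subst h3
      exact (h.asc _ _ _ hb).2.2 _ he

theorem dn_lk (h : IsNext L L' M) (hL : L.Good) {u : L'.S} {x y : A} (hd : L'.dn u x)
    (hxy : K.Lk x y) : L'.dn u y ∨ ∃ w, L'.lv u y w := by
  obtain ⟨p, hp⟩ := (h.dn_iff _ _).1 hd
  obtain ⟨b, hb⟩ := hxy
  have h1 : K.T (K.bar x) y b := K.rot _ _ _ hb
  have h2 := K.comp _ _ _ h1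
  have h3 := h.asc _ _ _ hp
  by_cases hdb : L.dn p b
  · exact (hL.asc_dn h3 hdb (Lk.symm ⟨_, h1⟩)).elim
  · by_cases hlb : ∃ q, L.lv p b q
    · obtain ⟨q, hq⟩ := hlb
      left
      exact (h.dn_iff _ _).2 ⟨q, h.close _ _ _ _ _ _ hp hq (sym h1)⟩
    · right
      have h4 : L.Asc p b := ⟨by rw [h2.2.1]; exact h3.1, hdb, fun q hq => hlb ⟨q, hq⟩⟩
      obtain ⟨w, hw⟩ := h.ex _ _ h4
      exact ⟨w, (h.lv_iff _ _ _).2 ⟨p, _, b, hp, hw, h1⟩⟩

theorem lv_dn (h : IsNext L L' M) {u w : L'.S} {x : A} (hx : L'.lv u x w) :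
    ∃ y, L'.dn u y ∧ K.Lk y x := by
  obtain ⟨p, a, b, ha, hb, ht⟩ := (h.lv_iff _ _ _).1 hx
  refine ⟨K.bar a, (h.dn_iff _ _).2 ⟨p, ?_⟩, ⟨_, K.rot _ _ _ ht⟩⟩
  rwa [K.bar_bar]

theorem lv_arr (h : IsNext L L' M) (hL : L.Good) {u w : L'.S} {x y : A} (hx : L'.lv u x w)
    (hy : L'.lv u y w) : x = y := by
  obtain ⟨p, a, b, ha, hb, ht⟩ := (h.lv_iff _ _ _).1 hx
  obtain ⟨q, a', b', ha', hb', ht'⟩ := (h.lv_iff _ _ _).1 hy
  by_cases hne : q = p
  · subst hne
    have h1 := h.uniq _ _ _ _ ha ha'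
    have h2 := h.uniq _ _ _ _ hb hb'
    subst h1 h2
    exact K.uniq _ _ _ _ ht ht'
  · rcases h.pair _ _ _ _ _ ha ha' with h1 | ⟨e, he, he'⟩
    · exact (hne h1.1).elim
    rcases h.pair _ _ _ _ _ hb hb' with h1 | ⟨e₁, he₁, he₁'⟩
    · exact (hne h1.1).elim
    have h3 := hL.lv_arr _ _ _ _ he he₁
    subst h3
    have h4 : K.T a' x b' := K.flag _ _ _ _ _ _ he' ht he₁'
    exact K.uniq _ _ _ _ h4 ht'

theorem lv_tri_aux (h : IsNext L L' M) (hL : L.Good) {u w v : L'.S} {p : L.S} {a b x y z : A}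
    (ha : M u p a) (hb : M w p b) (ht : K.T a x b) (hy : L'.lv u y v) (hz : K.T x z y)
    (hlk : K.Lk (K.bar a) y) : L'.lv w z v := by
  obtain ⟨c, hc⟩ := hlk
  have ha' : M u p (K.bar (K.bar a)) := by rwa [K.bar_bar]
  have h1 : M v p c := h.comp hL ha' hy hc
  exact (h.lv_iff _ _ _).2 ⟨p, b, c, hb, h1, K.flag _ _ _ _ _ _ (K.rot _ _ _ ht) hz hc⟩

theorem lv_tri (h : IsNext L L' M) (hL : L.Good) {u w v : L'.S} {x y z : A} (hx : L'.lv u x w)
    (hy : L'.lv u y v) (hz : K.T x z y) : L'.lv w z v := by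
  obtain ⟨p, a, b, ha, hb, ht⟩ := (h.lv_iff _ _ _).1 hx
  obtain ⟨q, a', b', ha', hb', ht'⟩ := (h.lv_iff _ _ _).1 hy
  by_cases hne : q = p
  · subst hne
    have h1 := h.uniq _ _ _ _ ha ha'
    subst h1
    exact h.lv_tri_aux hL ha hb ht hy hz ⟨_, K.rot _ _ _ ht'⟩
  · have h1 : K.Lk (K.bar a) x := ⟨_, K.rot _ _ _ ht⟩
    have h2 : K.Lk x y := ⟨_, hz⟩
    have h3 : K.Lk y (K.bar a') := Lk.symm ⟨_, K.rot _ _ _ ht'⟩
    have h4 : K.Lk (K.bar a') (K.bar a) := h.link ha' ha (Ne.symm hne)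
    have hda : L'.dn u (K.bar a) := (h.dn_iff _ _).2 ⟨p, by rwa [K.bar_bar]⟩
    have hda' : L'.dn u (K.bar a') := (h.dn_iff _ _).2 ⟨q, by rwa [K.bar_bar]⟩
    rcases n4 h1 h2 h3 h4 with h5 | h5 | h5 | h5
    · rw [← h5] at hy
      exact (h.dn_lv hda hy).elim
    · rw [h5] at hx
      exact (h.dn_lv hda' hx).elim
    · exact h.lv_tri_aux hL ha hb ht hy hz h5
    · have h6 := h.lv_tri_aux hL ha' hb' ht' hx (sym hz) h5.symm
      have h7 := h.lv_bar h6
      rwa [K.bar_bar] at h7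

end IsNext

/-- the invariants pass to the next level -/
theorem good_next {L' : Lev K} {M : L'.S → L.S → A → Prop} (hL : L.Good) (h : IsNext L L' M) :
    L'.Good where
  dn_src _ _ := h.src_dn
  lv_src _ _ _ := h.lv_src
  lv_bar _ _ _ := h.lv_bar
  lv_det _ _ _ _ := h.lv_det hL
  lv_ne _ _ := h.lv_ne
  lv_arr _ _ _ _ := h.lv_arr hL
  dn_lv _ _ _ := h.dn_lv
  dn_dn _ _ _ := h.dn_dn
  dn_lk _ _ _ := h.dn_lk hL
  lv_dn _ _ _ := h.lv_dn
  lv_comp u a b c w hd hl ht := by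
    obtain ⟨p, hp⟩ := (h.dn_iff _ _).1 hd
    refine (h.dn_iff _ _).2 ⟨p, ?_⟩
    rw [K.bar_bar]
    exact h.comp hL hp hl ht
  lv_tri u x y z w v hx hy ht := h.lv_tri hL hx hy ht

end Lev

end Pool.Agent.H59.DE
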