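import Pool.Agent.H59.DE.Lev

/-!
# The tower of the levels and the covering
-/

set_option autoImplicit false

namespace Pool.Agent.H59.DE

open Sys Lev

variable {V A : Type} (K : Sys V A) (o : V)

/-- the level of the base point -/
def base : Lev K where
  S := Unit
  f _ := o
  dn _ _ := False
  lv _ _ _ := False

theorem good_base : (base K o).Good where
  dn_src _ _ h := h.elim
  lv_src _ _ _ h := h.elim
  lv_bar _ _ _ h := h.elim
  lv_det _ _ _ _ h := h.elim
  lv_ne _ _ h := h.elim
  lv_arr _ _ _ _ h := h.elim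
  dn_lv _ _ _ h := h.elim
  dn_dn _ _ _ h := h.elim
  dn_lk _ _ _ h := h.elim
  lv_dn _ _ _ h := h.elim
  lv_comp _ _ _ _ _ h := h.elim
  lv_tri _ _ _ _ _ _ h := h.elim

/-- the levels -/
noncomputable def tower : ℕ → Lev K
  | 0 => base K o
  | n + 1 => (tower n).next

theorem good (n : ℕ) : (tower K o n).Good := by
  induction n with
  | zero => exact good_base K o
  | succ n ih => exact good_next ih (isNext ih)

/-- the pairs of a state -/
def mem {n : ℕ} (u : (tower K o (n + 1)).S) (p : (tower K o n).S) (a : A) : Prop := u.1 p a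

theorem nxt (n : ℕ) : IsNext (tower K o n) (tower K o (n + 1)) (mem K o) := isNext (good K o n)

/-- the states of all levels: the vertices of the universal cover -/
def St : Type := Σ n, (tower K o n).S

variable {K o}

namespace St

/-- the label -/
noncomputable def lab (s : St K o) : V := (tower K o s.1).f s.2

/-- the level -/
def ht (s : St K o) : ℕ := s.1

/-- `Nb s a t`: the arrow `a` leads from the state `s` to the state `t` -/
inductive Nb : St K o → A → St K o → Prop
  | up {n : ℕ} (u : (tower K o (n + 1)).S) (p : (tower K o n).S) (a : A) :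
      mem K o u p a → Nb ⟨n, p⟩ a ⟨n + 1, u⟩
  | down {n : ℕ} (u : (tower K o (n + 1)).S) (p : (tower K o n).S) (a : A) :
      mem K o u p (K.bar a) → Nb ⟨n + 1, u⟩ a ⟨n, p⟩
  | level {n : ℕ} (p q : (tower K o n).S) (a : A) : (tower K o n).lv p a q → Nb ⟨n, p⟩ a ⟨n, q⟩

variable {s t r : St K o} {a b c : A}

theorem Nb.bar (h : Nb s a t) : Nb t (K.bar a) s := by
  cases h with
  | up u p a h => exact Nb.down u p _ (by rwa [K.bar_bar])
  | down u p a h => exact Nb.up u p _ h
  | level p q a h => exact Nb.level q p _ ((good K o _).lv_bar _ _ _ h)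

theorem Nb.src (h : Nb s a t) : K.src a = s.lab := by
  cases h with
  | up u p a h => exact ((nxt K o _).asc _ _ _ h).1
  | down u p a h =>
    have := (nxt K o _).lab _ _ _ h
    rw [K.bar_bar] at this
    exact this.symm
  | level p q a h => exact ((good K o _).lv_src _ _ _ h).1

theorem Nb.tgt (h : Nb s a t) : K.src (K.bar a) = t.lab := h.bar.src

theorem Nb.det (h : Nb s a t) (h' : Nb s a r) : t = r := by
  cases h with
  | up u p a h =>
    cases h' with
    | up u' p' a' h' =>
      have := (nxt K o _).det _ _ _ _ h h'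
      rw [this]
    | down u' p' a' h' =>
      exact (((nxt K o _).asc _ _ _ h).2.1 (((nxt K o _).dn_iff _ _).2 ⟨_, h'⟩)).elim
    | level p' q' a' h' => exact (((nxt K o _).asc _ _ _ h).2.2 _ h').elim
  | down u p a h =>
    cases h' with
    | up u' p' a' h' =>
      exact (((nxt K o _).asc _ _ _ h').2.1 (((nxt K o _).dn_iff _ _).2 ⟨_, h⟩)).elim
    | down u' p' a' h' =>
      by_cases hne : p' = p
      · rw [hne]
      · exact (Lk.irrefl _ ((nxt K o _).link h h' hne)).elim
    | level p' q' a' h' =>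
      exact ((good K o _).dn_lv _ _ _ (((nxt K o _).dn_iff _ _).2 ⟨_, h⟩) h').elim
  | level p q a h =>
    cases h' with
    | up u' p' a' h' => exact (((nxt K o _).asc _ _ _ h').2.2 _ h).elim
    | down u' p' a' h' =>
      exact ((good K o _).dn_lv _ _ _ (((nxt K o _).dn_iff _ _).2 ⟨_, h'⟩) h).elim
    | level p' q' a' h' =>
      have := (good K o _).lv_det _ _ _ _ h h'
      rw [this]

theorem dn_iff : (∃ t, Nb s a t ∧ t.ht + 1 = s.ht) ↔ (tower K o s.1).dn s.2 a := by
  constructor
  · rintro ⟨t, h, ht⟩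
    cases h with
    | up u p a h =>
      (simp only [St.ht] at ht; omega)
    | down u p a h => exact ((nxt K o _).dn_iff _ _).2 ⟨_, h⟩
    | level p q a h => (simp only [St.ht] at ht; omega)
  · obtain ⟨n, s⟩ := s
    cases n with
    | zero => exact fun h => h.elim
    | succ n =>
      intro h
      obtain ⟨p, hp⟩ := ((nxt K o _).dn_iff _ _).1 h
      exact ⟨⟨n, p⟩, Nb.down s p a hp, rfl⟩

theorem lv_iff : (∃ t, Nb s a t ∧ t.ht = s.ht) ↔ ∃ q, (tower K o s.1).lv s.2 a q := by
  constructor
  · rintro ⟨t, h, ht⟩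
    cases h with
    | up u p a h => (simp only [St.ht] at ht; omega)
    | down u p a h => (simp only [St.ht] at ht; omega)
    | level p q a h => exact ⟨q, h⟩
  · rintro ⟨q, h⟩
    exact ⟨⟨s.1, q⟩, Nb.level _ _ _ h, rfl⟩

theorem up_iff : (∃ t, Nb s a t ∧ t.ht = s.ht + 1) ↔ (tower K o s.1).Asc s.2 a := by
  constructor
  · rintro ⟨t, h, ht⟩
    cases h with
    | up u p a h => exact (nxt K o _).asc _ _ _ h
    | down u p a h => (simp only [St.ht] at ht; omega)
    | level p q a h => (simp only [St.ht] at ht; omega)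
  · intro h
    obtain ⟨u, hu⟩ := (nxt K o _).ex _ _ h
    exact ⟨⟨s.1 + 1, u⟩, Nb.up _ _ _ hu, rfl⟩

/-- every arrow which starts at the label can be followed -/
theorem Nb.exists (h : K.src a = s.lab) : ∃ t, Nb s a t := by
  by_cases h1 : (tower K o s.1).dn s.2 a
  · obtain ⟨t, ht, -⟩ := dn_iff.2 h1
    exact ⟨t, ht⟩
  · by_cases h2 : ∃ q, (tower K o s.1).lv s.2 a q
    · obtain ⟨t, ht, -⟩ := lv_iff.2 h2
      exact ⟨t, ht⟩
    · obtain ⟨t, ht, -⟩ := up_iff.2 ⟨h, h1, fun q hq => h2 ⟨q, hq⟩⟩
      exact ⟨t, ht⟩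

theorem Nb.cases (h : Nb s a t) : t.ht + 1 = s.ht ∨ t.ht = s.ht ∨ t.ht = s.ht + 1 := by
  cases h with
  | up u p a h => exact Or.inr (Or.inr rfl)
  | down u p a h => exact Or.inl rfl
  | level p q a h => exact Or.inr (Or.inl rfl)

theorem Nb.dn (h : Nb s a t) (h' : t.ht + 1 = s.ht) : (tower K o s.1).dn s.2 a := dn_iff.1 ⟨t, h, h'⟩

theorem Nb.lv (h : Nb s a t) (h' : t.ht = s.ht) : ∃ q, (tower K o s.1).lv s.2 a q :=
  lv_iff.1 ⟨t, h, h'⟩

theorem Nb.asc (h : Nb s a t) (h' : t.ht = s.ht + 1) : (tower K o s.1).Asc s.2 a :=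
  up_iff.1 ⟨t, h, h'⟩

/-- a neighbour below and a neighbour above are not adjacent -/
theorem not_down_up (h : Nb s a t) (h' : Nb s b r) (h1 : t.ht + 1 = s.ht) (h2 : r.ht = s.ht + 1) :
    ¬ K.Lk a b := (good K o _).asc_dn (h'.asc h2) (h.dn h1)

/-- two descending arrows are equal or linked -/
theorem down_down (h : Nb s a t) (h' : Nb s b r) (h1 : t.ht + 1 = s.ht) (h2 : r.ht + 1 = s.ht) :
    a = b ∨ K.Lk a b := (good K o _).dn_dn _ _ _ (h.dn h1) (h'.dn h2)

/-- a level arrow is linked to a descending arrow -/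
theorem level_down (h : Nb s b r) (h2 : r.ht = s.ht) :
    ∃ a t, Nb s a t ∧ t.ht + 1 = s.ht ∧ K.Lk a b := by
  obtain ⟨q, hq⟩ := h.lv h2
  obtain ⟨a, ha, hab⟩ := (good K o _).lv_dn _ _ _ hq
  obtain ⟨t, ht, ht'⟩ := dn_iff.2 ha
  exact ⟨a, t, ht, ht', hab⟩

theorem Nb.arr (h : Nb s a t) (h' : Nb s b t) : a = b := by
  cases h with
  | up u p a h =>
    cases h' with
    | up u' p' a' h' => exact (nxt K o _).uniq _ _ _ _ h h'
  | down u p a h =>
    cases h' with
    | down u' p' a' h' => exact bar_inj ((nxt K o _).uniq _ _ _ _ h h')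
  | level p q a h =>
    cases h' with
    | level p' q' a' h' => exact (good K o _).lv_arr _ _ _ _ h h'

theorem Nb.ne (h : Nb s a t) : s ≠ t := by
  rintro rfl
  have h1 := h.cases
  rcases h.cases with h1 | h1 | h1
  · omega
  · cases h with
    | level p q a h => exact (good K o _).lv_ne _ _ h
  · omega

/-- the arrows of a triangle, seen from a state with two descending arrows -/
theorem tri_dd {n : ℕ} {u : (tower K o (n + 1)).S} {p q : (tower K o n).S}
    (hp : mem K o u p (K.bar a)) (hq : mem K o u q (K.bar c)) (h : K.T a b c) :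
    (tower K o n).lv p b q := by
  have hac : a ≠ c := Lk.ne ⟨_, h⟩
  rcases (nxt K o _).pair _ _ _ _ _ hp hq with h1 | ⟨e, he, he'⟩
  · exact (hac (bar_inj h1.2.symm)).elim
  · have h2 : K.T (K.bar a) c b := K.rot _ _ _ h
    have h3 : K.T (K.bar a) c e := by
      have := sym he'
      rwa [K.bar_bar] at this
    have := uniq3 h2 h3
    subst this
    exact he

theorem Nb.tri (ht : K.T a b c) (h : Nb s a t) (h' : Nb s c r) : Nb t b r := by
  have hlk : K.Lk a c := ⟨_, ht⟩
  cases h with
  | up u p a h =>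
    cases h' with
    | up u' p' a' h' =>
      exact Nb.level _ _ _ (((nxt K o _).lv_iff _ _ _).2 ⟨_, _, _, h, h', ht⟩)
    | down u' p' a' h' =>
      exact ((good K o _).asc_dn ((nxt K o _).asc _ _ _ h)
        (((nxt K o _).dn_iff _ _).2 ⟨_, h'⟩) hlk.symm).elim
    | level p' q' a' h' =>
      have h1 : K.T c (K.bar b) a := sym ht
      have h2 := (nxt K o _).close _ _ _ _ _ _ h h' h1
      exact Nb.down _ _ _ h2
  | down u p a h =>
    cases h' with
    | up u' p' a' h' =>
      exact ((good K o _).asc_dn ((nxt K o _).asc _ _ _ h')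
        (((nxt K o _).dn_iff _ _).2 ⟨_, h⟩) hlk).elim
    | down u' p' a' h' => exact Nb.level _ _ _ (tri_dd h h' ht)
    | level p' q' a' h' =>
      exact Nb.up _ _ _ ((nxt K o _).comp (good K o _) h h' ht)
  | level p q a h =>
    cases h' with
    | up u' p' a' h' =>
      exact Nb.up _ _ _ ((nxt K o _).close _ _ _ _ _ _ h' h ht)
    | down u' p' a' h' =>
      have h1 : K.T c (K.bar b) a := sym ht
      have h2 := (nxt K o _).comp (good K o _) h' h h1
      exact Nb.down _ _ _ h2
    | level p' q' a' h' => exact Nb.level _ _ _ ((good K o _).lv_tri _ _ _ _ _ _ h h' ht)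

end St

end Pool.Agent.H59.DE
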